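import Mathlib

set_option autoImplicit false

namespace Pool.Agent.H252.IrrMul

open Finset

noncomputable section

/-- `e t = exp (2 π i t)`. -/
def e (t : ℝ) : ℂ := Complex.exp ((2 * Real.pi * t : ℝ) * Complex.I)

lemma norm_e (t : ℝ) : ‖e t‖ = 1 := Complex.norm_exp_ofReal_mul_I _

lemma e_add (s t : ℝ) : e (s + t) = e s * e t := by
  unfold e; rw [← Complex.exp_add]; congr 1; push_cast; ring

lemma e_zero : e 0 = 1 := by simp [e]

lemma e_sum (s : Finset ℕ) (f : ℕ → ℝ) : e (∑ j ∈ s, f j) = ∏ j ∈ s, e (f j) := by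
  classical
  induction s using Finset.induction_on with
  | empty => simp [e_zero]
  | insert a s ha ih => rw [Finset.sum_insert ha, Finset.prod_insert ha, e_add, ih]

lemma conj_e (t : ℝ) : (starRingEnd ℂ) (e t) = e (-t) := by
  unfold e
  rw [← Complex.exp_conj, map_mul, Complex.conj_ofReal, Complex.conj_I]
  congr 1
  push_cast; ring

lemma e_int (m : ℤ) : e m = 1 := by
  unfold e
  rw [Complex.exp_eq_one_iff]
  exact ⟨m, by push_cast; ring⟩

lemma re_e (t : ℝ) : (e t).re = Real.cos (2 * Real.pi * t) := by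
  unfold e; rw [Complex.exp_ofReal_mul_I_re]

lemma im_e (t : ℝ) : (e t).im = Real.sin (2 * Real.pi * t) := by
  unfold e; rw [Complex.exp_ofReal_mul_I_im]

/-- the half-angle factor -/
def hf (t : ℝ) : ℝ := ‖(1 + e t) / 2‖

lemma hf_nonneg (t : ℝ) : 0 ≤ hf t := norm_nonneg _

lemma hf_sq (t : ℝ) : hf t ^ 2 = (1 + Real.cos (2 * Real.pi * t)) / 2 := by
  unfold hf
  rw [← Complex.normSq_eq_norm_sq, Complex.normSq_apply]
  have h1 : ((1 + e t) / 2).re = (1 + Real.cos (2 * Real.pi * t)) / 2 := by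
    simp [re_e]
  have h2 : ((1 + e t) / 2).im = (Real.sin (2 * Real.pi * t)) / 2 := by
    simp [im_e]
  rw [h1, h2]
  nlinarith [Real.sin_sq_add_cos_sq (2 * Real.pi * t)]

lemma hf_le_one (t : ℝ) : hf t ≤ 1 := by
  have h := hf_sq t
  have h1 := Real.cos_le_one (2 * Real.pi * t)
  nlinarith [hf_nonneg t]

lemma hf_neg (t : ℝ) : hf (-t) = hf t := by
  have h1 := hf_sq t
  have h2 := hf_sq (-t)
  have h3 : Real.cos (2 * Real.pi * -t) = Real.cos (2 * Real.pi * t) := by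
    rw [← Real.cos_neg]; congr 1; ring
  rw [h3, ← h1] at h2
  exact (pow_left_inj₀ (hf_nonneg _) (hf_nonneg _) (by norm_num)).mp h2

lemma hf_far {t c : ℝ} (hc : 0 < c) (h : ∀ m : ℤ, c ≤ |t - m|) :
    hf t ^ 2 ≤ 1 - 4 * c ^ 2 := by
  rw [hf_sq]
  set u := t - round t with hu
  have hu1 : |u| ≤ 1 / 2 := abs_sub_round t
  have hu2 : c ≤ |u| := h _
  have hcos : Real.cos (2 * Real.pi * t) = Real.cos (2 * Real.pi * u) := by
    rw [hu, ← Real.cos_sub_int_mul_two_pi _ (round t)]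
    congr 1; ring
  rw [hcos]
  have hpi := Real.pi_pos
  have hle : |2 * Real.pi * u| ≤ Real.pi := by
    rw [abs_mul, abs_of_pos (by positivity)]
    nlinarith
  have := Real.cos_le_one_sub_mul_cos_sq hle
  have h3 : 2 / Real.pi ^ 2 * (2 * Real.pi * u) ^ 2 = 8 * u ^ 2 := by
    field_simp; ring
  rw [h3] at this
  have h4 : c ^ 2 ≤ u ^ 2 := by
    rw [← sq_abs u]; exact pow_le_pow_left₀ hc.le hu2 2
  linarith

/-- irrational multiples of powers are far from the integers infinitely often in each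
residue class -/
lemma exists_far {r : ℕ} (hr : 2 ≤ r) {β : ℝ} (hβ : Irrational β) {L : ℕ} (hL : 1 ≤ L)
    (l₀ ρ : ℕ) :
    ∃ l, l₀ ≤ l ∧ l % L = ρ % L ∧ ∀ m : ℤ, 1 / (2 * (r : ℝ) ^ L) ≤ |β * (r : ℝ) ^ l - m| := by
  by_contra hcon
  push Not at hcon
  have hr1 : (2 : ℝ) ≤ r := by exact_mod_cast hr
  have hr0 : (0 : ℝ) < r := by linarith
  have hrL : (2 : ℝ) ≤ (r : ℝ) ^ L := by
    calc (2 : ℝ) ≤ r := hr1
      _ = (r : ℝ) ^ 1 := (pow_one _).symm
      _ ≤ (r : ℝ) ^ L := pow_le_pow_right₀ (by linarith) hL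
  have hkey : ∀ i : ℕ, ∃ m : ℤ, |β * (r : ℝ) ^ (ρ + L * (l₀ + i)) - m| < 1 / (2 * (r : ℝ) ^ L) := by
    intro i
    apply hcon
    · nlinarith
    · rw [Nat.add_mul_mod_self_left]
  choose m hm using hkey
  have hstep : ∀ i, β * (r : ℝ) ^ (ρ + L * (l₀ + (i + 1))) - m (i + 1)
      = (r : ℝ) ^ L * (β * (r : ℝ) ^ (ρ + L * (l₀ + i)) - m i) := by
    intro i
    have hp : (r : ℝ) ^ (ρ + L * (l₀ + (i + 1))) = (r : ℝ) ^ L * (r : ℝ) ^ (ρ + L * (l₀ + i)) := by
      rw [← pow_add]; congr 1; ring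
    have h1 := hm i
    have h2 := hm (i + 1)
    have h3 : |(r : ℝ) ^ L * (β * (r : ℝ) ^ (ρ + L * (l₀ + i)) - m i)| < 1 / 2 := by
      rw [abs_mul, abs_of_pos (by positivity)]
      calc (r : ℝ) ^ L * |β * (r : ℝ) ^ (ρ + L * (l₀ + i)) - m i|
          < (r : ℝ) ^ L * (1 / (2 * (r : ℝ) ^ L)) := by
            apply mul_lt_mul_of_pos_left h1 (by positivity)
        _ = 1 / 2 := by field_simp
    have h4 : (1 : ℝ) / (2 * (r : ℝ) ^ L) ≤ 1 / 2 := by
      apply one_div_le_one_div_of_le (by norm_num); linarith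
    have h5 : m (i + 1) = (r : ℤ) ^ L * m i := by
      have h6 : |((m (i + 1) - (r : ℤ) ^ L * m i : ℤ) : ℝ)| < 1 := by
        have h7 : ((m (i + 1) - (r : ℤ) ^ L * m i : ℤ) : ℝ)
            = (r : ℝ) ^ L * (β * (r : ℝ) ^ (ρ + L * (l₀ + i)) - m i)
              - (β * (r : ℝ) ^ (ρ + L * (l₀ + (i + 1))) - m (i + 1)) := by
          rw [hp]; push_cast; ring
        rw [h7]
        calc _ ≤ |(r : ℝ) ^ L * (β * (r : ℝ) ^ (ρ + L * (l₀ + i)) - m i)|
              + |β * (r : ℝ) ^ (ρ + L * (l₀ + (i + 1))) - m (i + 1)| := abs_sub _ _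
          _ < 1 / 2 + 1 / 2 := by linarith
          _ = 1 := by norm_num
      have h8 : |m (i + 1) - (r : ℤ) ^ L * m i| < 1 := by exact_mod_cast h6
      have := Int.abs_lt_one_iff.mp h8
      linarith
    rw [h5, hp]; push_cast; ring
  have hpow : ∀ i, β * (r : ℝ) ^ (ρ + L * (l₀ + i)) - m i
      = ((r : ℝ) ^ L) ^ i * (β * (r : ℝ) ^ (ρ + L * (l₀ + 0)) - m 0) := by
    intro i
    induction i with
    | zero => simp
    | succ i ih => rw [hstep, ih]; ring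
  set δ := β * (r : ℝ) ^ (ρ + L * (l₀ + 0)) - m 0 with hδ
  have hδ0 : δ ≠ 0 := by
    intro h0
    rw [hδ] at h0
    have hirr : Irrational (β * ((r ^ (ρ + L * (l₀ + 0)) : ℕ) : ℝ)) :=
      hβ.mul_natCast (by positivity)
    apply hirr.ne_int (m 0)
    push_cast
    linarith
  obtain ⟨i, hi⟩ := pow_unbounded_of_one_lt (1 / |δ|) (show (1 : ℝ) < (r : ℝ) ^ L by linarith)
  have h1 := hm i
  rw [hpow i, abs_mul, abs_of_pos (by positivity)] at h1
  have h2 : 1 < ((r : ℝ) ^ L) ^ i * |δ| := by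
    rw [div_lt_iff₀ (abs_pos.mpr hδ0)] at hi
    exact hi
  have h4 : (1 : ℝ) / (2 * (r : ℝ) ^ L) ≤ 1 / 2 := by
    apply one_div_le_one_div_of_le (by norm_num); linarith
  linarith

end

end Pool.Agent.H252.IrrMul
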