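import Pool.Agent.H252.IrrMulA

set_option autoImplicit false

namespace Pool.Agent.H252.IrrMul

open Finset

noncomputable section

/-- the candidate positions: multiples of `L` in `(N0, N1]`. -/
def pos (L N0 N1 : ℕ) : Finset ℕ := (Finset.Ioc N0 N1).filter (fun j => L ∣ j)

/-- the correlation product -/
def prodP (r : ℕ) (b : ℝ) (h : ℕ) (J : Finset ℕ) (n n' : ℕ) : ℝ :=
  ∏ j ∈ J, hf ((h : ℝ) * b * ((r : ℝ) ^ n' - (r : ℝ) ^ n) * ((r : ℝ)⁻¹) ^ j)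

lemma prodP_nonneg (r : ℕ) (b : ℝ) (h : ℕ) (J : Finset ℕ) (n n' : ℕ) : 0 ≤ prodP r b h J n n' :=
  Finset.prod_nonneg fun _ _ => hf_nonneg _

lemma prodP_le_one (r : ℕ) (b : ℝ) (h : ℕ) (J : Finset ℕ) (n n' : ℕ) : prodP r b h J n n' ≤ 1 :=
  Finset.prod_le_one (fun _ _ => hf_nonneg _) fun _ _ => hf_le_one _

lemma prodP_symm (r : ℕ) (b : ℝ) (h : ℕ) (J : Finset ℕ) (n n' : ℕ) :
    prodP r b h J n' n = prodP r b h J n n' := by
  unfold prodP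
  refine Finset.prod_congr rfl fun j _ => ?_
  rw [← hf_neg]; congr 1; ring

lemma good_pair {r : ℕ} (hr : 2 ≤ r) {b : ℝ} (hb : Irrational b) {L : ℕ} (hL : 1 ≤ L)
    {h : ℕ} (hh : 1 ≤ h) {δ : ℝ} (hδ : 0 < δ) :
    ∃ d₀ : ℕ, ∀ N0 N1 n n' : ℕ, n + d₀ ≤ n' → N0 + d₀ ≤ n' → n' < N1 →
      prodP r b h (pos L N0 N1) n n' ≤ δ := by
  classical
  have hr1 : (2 : ℝ) ≤ r := by exact_mod_cast hr
  have hr0 : (0 : ℝ) < r := by linarith
  have hβ : Irrational ((h : ℝ) * b) := hb.natCast_mul (by omega)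
  set c : ℝ := 1 / (2 * (r : ℝ) ^ L) with hc
  have hc0 : 0 < c := by positivity
  have hrL : (2 : ℝ) ≤ (r : ℝ) ^ L := by
    calc (2 : ℝ) ≤ r := hr1
      _ = (r : ℝ) ^ 1 := (pow_one _).symm
      _ ≤ (r : ℝ) ^ L := pow_le_pow_right₀ (by linarith) hL
  have hc1 : c ≤ 1 / 4 := by
    rw [hc]; apply one_div_le_one_div_of_le (by norm_num); linarith
  set γ : ℝ := Real.sqrt (1 - 4 * (c / 2) ^ 2) with hγ
  have hγ0 : 0 ≤ γ := Real.sqrt_nonneg _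
  have hγ1 : γ < 1 := by
    rw [hγ, Real.sqrt_lt' one_pos]
    have : 0 < (c / 2) ^ 2 := by positivity
    linarith
  obtain ⟨C, hC⟩ := exists_pow_lt_of_lt_one hδ hγ1
  have hT : ∀ ρ : ℕ, ∃ T : Finset ℕ, T.card = C ∧ ∀ l ∈ T, l % L = ρ % L ∧
      ∀ m : ℤ, c ≤ |(h : ℝ) * b * (r : ℝ) ^ l - m| := by
    intro ρ
    have hinf : Set.Infinite {l : ℕ | l % L = ρ % L ∧
        ∀ m : ℤ, c ≤ |(h : ℝ) * b * (r : ℝ) ^ l - m|} := by
      rw [Set.infinite_iff_exists_gt]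
      intro a
      obtain ⟨l, h1, h2, h3⟩ := exists_far hr hβ hL (a + 1) ρ
      exact ⟨l, ⟨h2, h3⟩, by omega⟩
    obtain ⟨T, hT1, hT2⟩ := hinf.exists_subset_card_eq C
    exact ⟨T, hT2, fun l hl => hT1 hl⟩
  choose T hTc hTp using hT
  set l₁ : ℕ := (range L).sup (fun ρ => (T ρ).sup id) with hl₁
  have hl₁le : ∀ ρ < L, ∀ l ∈ T ρ, l ≤ l₁ := by
    intro ρ hρ l hl
    calc l ≤ (T ρ).sup id := Finset.le_sup (f := id) hl
      _ ≤ l₁ := Finset.le_sup (f := fun ρ => (T ρ).sup id) (Finset.mem_range.mpr hρ)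
  obtain ⟨q, hq⟩ := pow_unbounded_of_one_lt (|(h : ℝ) * b| / (c / 2))
    (show (1 : ℝ) < (r : ℝ) by linarith)
  refine ⟨l₁ + 1 + q, ?_⟩
  intro N0 N1 n n' h1 h2 h3
  set T' := T (n' % L) with hT'
  have hρ : n' % L < L := Nat.mod_lt _ hL
  have hT'le : ∀ l ∈ T', l ≤ l₁ := hl₁le _ hρ
  set J' := T'.image (fun l => n' - l) with hJ'
  have hJ'card : J'.card = C := by
    rw [hJ', Finset.card_image_of_injOn, hT', hTc]
    intro x hx y hy hxy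
    have hx1 := hT'le x hx
    have hy1 := hT'le y hy
    simp only at hxy
    omega
  have hJ'sub : J' ⊆ pos L N0 N1 := by
    intro j hj
    rw [hJ', Finset.mem_image] at hj
    obtain ⟨l, hl, rfl⟩ := hj
    have hl1 := hT'le l hl
    have hl2 := (hTp _ l hl).1
    rw [Nat.mod_mod] at hl2
    unfold pos
    rw [Finset.mem_filter, Finset.mem_Ioc]
    refine ⟨⟨by omega, by omega⟩, ?_⟩
    exact (Nat.modEq_iff_dvd' (by omega)).mp hl2
  unfold prodP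
  rw [← Finset.prod_sdiff hJ'sub]
  have hA : ∏ j ∈ pos L N0 N1 \ J', hf ((h : ℝ) * b * ((r : ℝ) ^ n' - (r : ℝ) ^ n) * ((r : ℝ)⁻¹) ^ j)
      ≤ 1 := Finset.prod_le_one (fun _ _ => hf_nonneg _) fun _ _ => hf_le_one _
  have hB : ∏ j ∈ J', hf ((h : ℝ) * b * ((r : ℝ) ^ n' - (r : ℝ) ^ n) * ((r : ℝ)⁻¹) ^ j)
      ≤ γ ^ C := by
    rw [← hJ'card, ← Finset.prod_const]
    apply Finset.prod_le_prod (fun _ _ => hf_nonneg _)
    intro j hj
    rw [hJ', Finset.mem_image] at hj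
    obtain ⟨l, hl, rfl⟩ := hj
    have hl1 := hT'le l hl
    have hl2 := (hTp _ l hl).2
    rw [hγ]
    apply Real.le_sqrt_of_sq_le
    apply hf_far (by positivity)
    intro m
    have e1 : (h : ℝ) * b * ((r : ℝ) ^ n' - (r : ℝ) ^ n) * ((r : ℝ)⁻¹) ^ (n' - l) - m
        = ((h : ℝ) * b * (r : ℝ) ^ l - m)
          - (h : ℝ) * b * ((r : ℝ) ^ n * ((r : ℝ)⁻¹) ^ (n' - l)) := by
      have : (r : ℝ) ^ n' = (r : ℝ) ^ l * (r : ℝ) ^ (n' - l) := by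
        rw [← pow_add]; congr 1; omega
      rw [this]
      have h5 : (r : ℝ) ^ (n' - l) * ((r : ℝ)⁻¹) ^ (n' - l) = 1 := by
        rw [← mul_pow, mul_inv_cancel₀ hr0.ne', one_pow]
      linear_combination ((h : ℝ) * b * (r : ℝ) ^ l) * h5
    have e2 : |(h : ℝ) * b * ((r : ℝ) ^ n * ((r : ℝ)⁻¹) ^ (n' - l))| ≤ c / 2 := by
      rw [abs_mul]
      have h6 : |(r : ℝ) ^ n * ((r : ℝ)⁻¹) ^ (n' - l)| ≤ ((r : ℝ)⁻¹) ^ q := by
        rw [abs_of_pos (by positivity)]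
        have : ((r : ℝ)⁻¹) ^ (n' - l) = ((r : ℝ)⁻¹) ^ n * ((r : ℝ)⁻¹) ^ (n' - l - n) := by
          rw [← pow_add]; congr 1; omega
        rw [this, ← mul_assoc, ← mul_pow, mul_inv_cancel₀ hr0.ne', one_pow, one_mul]
        apply pow_le_pow_of_le_one (by positivity) (inv_le_one_of_one_le₀ (by linarith))
        omega
      calc |(h : ℝ) * b| * |(r : ℝ) ^ n * ((r : ℝ)⁻¹) ^ (n' - l)|
          ≤ |(h : ℝ) * b| * ((r : ℝ)⁻¹) ^ q := by gcongr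
        _ ≤ c / 2 := by
          rw [inv_pow, ← div_eq_mul_inv, div_le_iff₀ (by positivity)]
          rw [div_lt_iff₀ (by positivity)] at hq
          linarith
    rw [e1]
    have h7 := hl2 m
    have h8 := abs_sub_abs_le_abs_sub ((h : ℝ) * b * (r : ℝ) ^ l - m)
      ((h : ℝ) * b * ((r : ℝ) ^ n * ((r : ℝ)⁻¹) ^ (n' - l)))
    linarith
  calc _ ≤ 1 * γ ^ C := by
        apply mul_le_mul hA hB (Finset.prod_nonneg fun _ _ => hf_nonneg _) zero_le_one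
    _ ≤ δ := by linarith

/-- second moment -/
lemma second_moment (r : ℕ) (b : ℝ) (h : ℕ) (z : ℝ) (J : Finset ℕ) (N : ℕ) :
    ∑ G ∈ J.powerset, ‖∑ n ∈ range N,
        e ((h : ℝ) * b * (r : ℝ) ^ n * (z + ∑ j ∈ G, ((r : ℝ)⁻¹) ^ j))‖ ^ 2
      ≤ 2 ^ J.card * ∑ n ∈ range N, ∑ n' ∈ range N, prodP r b h J n n' := by
  classical
  set θ : ℕ → ℕ → ℕ → ℝ := fun n n' j =>
    (h : ℝ) * b * ((r : ℝ) ^ n' - (r : ℝ) ^ n) * ((r : ℝ)⁻¹) ^ j with hθ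
  have key : ((∑ G ∈ J.powerset, ‖∑ n ∈ range N,
        e ((h : ℝ) * b * (r : ℝ) ^ n * (z + ∑ j ∈ G, ((r : ℝ)⁻¹) ^ j))‖ ^ 2 : ℝ) : ℂ)
      = ∑ n ∈ range N, ∑ n' ∈ range N, e ((h : ℝ) * b * ((r : ℝ) ^ n' - (r : ℝ) ^ n) * z)
          * ∏ j ∈ J, (1 + e (θ n n' j)) := by
    rw [Complex.ofReal_sum]
    have h1 : ∀ G ∈ J.powerset, (((‖∑ n ∈ range N,
        e ((h : ℝ) * b * (r : ℝ) ^ n * (z + ∑ j ∈ G, ((r : ℝ)⁻¹) ^ j))‖ ^ 2 : ℝ)) : ℂ)
        = ∑ n ∈ range N, ∑ n' ∈ range N, e ((h : ℝ) * b * ((r : ℝ) ^ n' - (r : ℝ) ^ n) * z)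
          * ∏ j ∈ G, e (θ n n' j) := by
      intro G _
      have h2 : ∀ w : ℂ, (((‖w‖ ^ 2 : ℝ)) : ℂ) = (starRingEnd ℂ) w * w := by
        intro w
        rw [← Complex.normSq_eq_norm_sq, Complex.normSq_eq_conj_mul_self]
      rw [h2, map_sum, Finset.sum_mul_sum]
      refine Finset.sum_congr rfl fun n _ => Finset.sum_congr rfl fun n' _ => ?_
      rw [conj_e, ← e_add, ← e_sum, ← e_add]
      congr 1
      rw [hθ]
      simp only
      rw [← Finset.mul_sum]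
      ring
    rw [Finset.sum_congr rfl h1, Finset.sum_comm]
    refine Finset.sum_congr rfl fun n _ => ?_
    rw [Finset.sum_comm]
    refine Finset.sum_congr rfl fun n' _ => ?_
    rw [← Finset.mul_sum, Finset.prod_one_add]
  have hnn : 0 ≤ ∑ G ∈ J.powerset, ‖∑ n ∈ range N,
        e ((h : ℝ) * b * (r : ℝ) ^ n * (z + ∑ j ∈ G, ((r : ℝ)⁻¹) ^ j))‖ ^ 2 :=
    Finset.sum_nonneg fun _ _ => by positivity
  have hnorm := congrArg norm key
  rw [Complex.norm_real, Real.norm_of_nonneg hnn] at hnorm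
  rw [hnorm, Finset.mul_sum]
  refine (norm_sum_le _ _).trans (Finset.sum_le_sum fun n _ => ?_)
  rw [Finset.mul_sum]
  refine (norm_sum_le _ _).trans (Finset.sum_le_sum fun n' _ => ?_)
  rw [norm_mul, norm_e, one_mul, norm_prod, prodP, ← Finset.prod_const, ← Finset.prod_mul_distrib]
  apply le_of_eq
  refine Finset.prod_congr rfl fun j _ => ?_
  unfold hf
  have h2 : ‖(2 : ℂ)‖ = 2 := by simp
  rw [norm_div, h2, hθ]
  simp only
  ring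

end

end Pool.Agent.H252.IrrMul
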