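import Pool.Agent.H252.IrrMulB

set_option autoImplicit false

namespace Pool.Agent.H252.IrrMul

open Finset

noncomputable section

/-- uniform version over `1 ≤ h ≤ H` -/
lemma good_pair_unif {r : ℕ} (hr : 2 ≤ r) {b : ℝ} (hb : Irrational b) {L : ℕ} (hL : 1 ≤ L)
    (H : ℕ) {δ : ℝ} (hδ : 0 < δ) :
    ∃ d₀ : ℕ, ∀ h : ℕ, 1 ≤ h → h ≤ H → ∀ N0 N1 n n' : ℕ, n + d₀ ≤ n' → N0 + d₀ ≤ n' → n' < N1 →
      prodP r b h (pos L N0 N1) n n' ≤ δ := by
  induction H with
  | zero => exact ⟨0, fun h h1 h2 => by omega⟩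
  | succ H ih =>
    obtain ⟨d1, hd1⟩ := ih
    obtain ⟨d2, hd2⟩ := good_pair hr hb hL (show 1 ≤ H + 1 by omega) hδ
    refine ⟨max d1 d2, ?_⟩
    intro h h1 h2 N0 N1 n n' h3 h4 h5
    have hm1 := le_max_left d1 d2
    have hm2 := le_max_right d1 d2
    rcases Nat.lt_or_ge h (H + 1) with hlt | hge
    · exact hd1 h h1 (by omega) N0 N1 n n' (by omega) (by omega) h5
    · have : h = H + 1 := by omega
      subst this
      exact hd2 N0 N1 n n' (by omega) (by omega) h5

/-- sum over all pairs -/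
lemma pair_sum {r : ℕ} {b : ℝ} {h L N0 N1 d₀ : ℕ} {δ : ℝ} (hδ : 0 < δ)
    (hg : ∀ n n' : ℕ, n + d₀ ≤ n' → N0 + d₀ ≤ n' → n' < N1 →
      prodP r b h (pos L N0 N1) n n' ≤ δ) :
    ∑ n ∈ range N1, ∑ n' ∈ range N1, prodP r b h (pos L N0 N1) n n'
      ≤ δ * N1 ^ 2 + (N0 + 3 * d₀) * N1 := by
  classical
  have hpt : ∀ n ∈ range N1, ∀ n' ∈ range N1, prodP r b h (pos L N0 N1) n n'
      ≤ δ + (if (n < n' + d₀ ∧ n' < n + d₀) then 1 else 0) + (if n < N0 + d₀ then 1 else 0) := by
    intro n hn n' hn'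
    rw [Finset.mem_range] at hn hn'
    by_cases c1 : n < n' + d₀ ∧ n' < n + d₀
    · rw [if_pos c1]
      have := prodP_le_one r b h (pos L N0 N1) n n'
      have h3 : (0 : ℝ) ≤ (if n < N0 + d₀ then 1 else 0) := by split_ifs <;> norm_num
      linarith
    · rw [if_neg c1]
      by_cases c2 : n < N0 + d₀
      · rw [if_pos c2]
        have := prodP_le_one r b h (pos L N0 N1) n n'
        linarith
      · rw [if_neg c2]
        have : prodP r b h (pos L N0 N1) n n' ≤ δ := by
          by_cases c3 : n + d₀ ≤ n'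
          · exact hg n n' c3 (by omega) hn'
          · have c4 : n' + d₀ ≤ n := by
              by_contra hc
              exact c1 ⟨by omega, by omega⟩
            rw [prodP_symm]
            exact hg n' n c4 (by omega) hn
        linarith
  calc ∑ n ∈ range N1, ∑ n' ∈ range N1, prodP r b h (pos L N0 N1) n n'
      ≤ ∑ n ∈ range N1, ∑ n' ∈ range N1,
        (δ + (if (n < n' + d₀ ∧ n' < n + d₀) then 1 else 0) + (if n < N0 + d₀ then 1 else 0)) :=
        Finset.sum_le_sum fun n hn => Finset.sum_le_sum fun n' hn' => hpt n hn n' hn'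
    _ ≤ ∑ n ∈ range N1, (δ * N1 + 2 * d₀ + N1 * (if n < N0 + d₀ then 1 else 0)) := by
        apply Finset.sum_le_sum
        intro n _
        rw [Finset.sum_add_distrib, Finset.sum_add_distrib]
        have h1 : ∑ n' ∈ range N1, (if (n < n' + d₀ ∧ n' < n + d₀) then (1 : ℝ) else 0) ≤ 2 * d₀ := by
          rw [Finset.sum_boole]
          have : (Finset.filter (fun n' => n < n' + d₀ ∧ n' < n + d₀) (range N1)).card
              ≤ 2 * d₀ := by
            calc _ ≤ (Finset.Ico (n + 1 - d₀) (n + d₀)).card := by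
                  apply Finset.card_le_card
                  intro x hx
                  rw [Finset.mem_filter] at hx
                  rw [Finset.mem_Ico]
                  omega
              _ ≤ 2 * d₀ := by rw [Nat.card_Ico]; omega
          exact_mod_cast this
        simp only [Finset.sum_const, Finset.card_range, nsmul_eq_mul]
        linarith
    _ = δ * N1 ^ 2 + 2 * d₀ * N1
        + N1 * ∑ n ∈ range N1, (if n < N0 + d₀ then (1 : ℝ) else 0) := by
        rw [Finset.sum_add_distrib, Finset.sum_add_distrib, Finset.mul_sum]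
        simp only [Finset.sum_const, Finset.card_range, nsmul_eq_mul]
        ring
    _ ≤ δ * N1 ^ 2 + 2 * d₀ * N1 + N1 * (N0 + d₀) := by
        have h1 : ∑ n ∈ range N1, (if n < N0 + d₀ then (1 : ℝ) else 0) ≤ N0 + d₀ := by
          rw [Finset.sum_boole]
          have : (Finset.filter (fun n => n < N0 + d₀) (range N1)).card ≤ N0 + d₀ := by
            calc _ ≤ (Finset.range (N0 + d₀)).card := by
                  apply Finset.card_le_card
                  intro x hx
                  rw [Finset.mem_filter] at hx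
                  rw [Finset.mem_range]
                  omega
              _ = N0 + d₀ := by rw [Finset.card_range]
          exact_mod_cast this
        have h2 : (0 : ℝ) ≤ N1 := by positivity
        nlinarith
    _ = _ := by ring

/-- one construction step -/
lemma step {r : ℕ} (hr : 2 ≤ r) {b : ℝ} (hb : Irrational b) {L : ℕ} (hL : 1 ≤ L)
    (H : ℕ) {η : ℝ} (hη : 0 < η) (z : ℝ) (N0 : ℕ) (M : ℕ) :
    ∃ N1 : ℕ, N0 < N1 ∧ M ≤ N1 ∧ ∃ G : Finset ℕ, G ⊆ pos L N0 N1 ∧
      ∀ h : ℕ, 1 ≤ h → h ≤ H → ‖∑ n ∈ range N1,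
        e ((h : ℝ) * b * (r : ℝ) ^ n * (z + ∑ j ∈ G, ((r : ℝ)⁻¹) ^ j))‖ ≤ η * N1 := by
  classical
  set δ : ℝ := η ^ 2 / (2 * (H + 1)) with hδ
  have hδ0 : 0 < δ := by positivity
  obtain ⟨d₀, hd₀⟩ := good_pair_unif hr hb hL H hδ0
  obtain ⟨K, hK⟩ := exists_nat_gt (2 * (H + 1) * (N0 + 3 * d₀) / η ^ 2)
  set N1 := N0 + 1 + M + K with hN1
  refine ⟨N1, by omega, by omega, ?_⟩
  have hN1pos : (0 : ℝ) < N1 := by
    have : 0 < N1 := by omega
    exact_mod_cast this
  have hN1K : (K : ℝ) ≤ N1 := by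
    have : K ≤ N1 := by omega
    exact_mod_cast this
  have hbig : (N0 + 3 * d₀ : ℝ) ≤ δ * N1 := by
    rw [div_lt_iff₀ (by positivity)] at hK
    rw [hδ, div_mul_eq_mul_div, le_div_iff₀ (by positivity)]
    have : (K : ℝ) * η ^ 2 ≤ N1 * η ^ 2 := by gcongr
    linarith
  set J := pos L N0 N1 with hJ
  set A : Finset ℕ → ℕ → ℝ := fun G h => ‖∑ n ∈ range N1,
        e ((h : ℝ) * b * (r : ℝ) ^ n * (z + ∑ j ∈ G, ((r : ℝ)⁻¹) ^ j))‖ with hA
  have hsum : ∑ G ∈ J.powerset, ∑ h ∈ Finset.Icc 1 H, A G h ^ 2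
      ≤ ∑ G ∈ J.powerset, (η * N1) ^ 2 := by
    rw [Finset.sum_comm, Finset.sum_const, Finset.card_powerset, nsmul_eq_mul]
    calc ∑ h ∈ Finset.Icc 1 H, ∑ G ∈ J.powerset, A G h ^ 2
        ≤ ∑ h ∈ Finset.Icc 1 H, 2 ^ J.card * (δ * N1 ^ 2 + (N0 + 3 * d₀) * N1) := by
          apply Finset.sum_le_sum
          intro h hh
          rw [Finset.mem_Icc] at hh
          refine (second_moment r b h z J N1).trans ?_
          apply mul_le_mul_of_nonneg_left _ (by positivity)
          exact pair_sum hδ0 (fun n n' => hd₀ h hh.1 hh.2 N0 N1 n n')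
      _ ≤ ∑ h ∈ Finset.Icc 1 H, 2 ^ J.card * (2 * δ * N1 ^ 2) := by
          apply Finset.sum_le_sum
          intro h _
          apply mul_le_mul_of_nonneg_left _ (by positivity)
          nlinarith
      _ = H * (2 ^ J.card * (2 * δ * N1 ^ 2)) := by
          rw [Finset.sum_const, nsmul_eq_mul, Nat.card_Icc]; simp
      _ ≤ (H + 1) * (2 ^ J.card * (2 * δ * N1 ^ 2)) := by
          apply mul_le_mul_of_nonneg_right (by linarith) (by positivity)
      _ = 2 ^ J.card * (η * N1) ^ 2 := by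
          rw [hδ]; field_simp
      _ = _ := by push_cast; ring
  obtain ⟨G, hG, hGle⟩ := Finset.exists_le_of_sum_le ⟨∅, Finset.empty_mem_powerset J⟩ hsum
  refine ⟨G, Finset.mem_powerset.mp hG, ?_⟩
  intro h h1 h2
  have h3 : A G h ^ 2 ≤ ∑ h ∈ Finset.Icc 1 H, A G h ^ 2 :=
    Finset.single_le_sum (f := fun h => A G h ^ 2) (fun _ _ => by positivity)
      (Finset.mem_Icc.mpr ⟨h1, h2⟩)
  have h4 : A G h ^ 2 ≤ (η * N1) ^ 2 := h3.trans hGle
  exact (pow_le_pow_iff_left₀ (norm_nonneg _) (by positivity) (by norm_num)).mp h4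

end

end Pool.Agent.H252.IrrMul
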