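import Pool.Agent.H252.IrrMulC

set_option autoImplicit false

namespace Pool.Agent.H252.IrrMul

open Finset

noncomputable section

lemma floor_block (z : ℝ) (r : ℕ) (v : ℕ → ℤ) (k : ℕ) : ∃ W : ℤ, ∀ n : ℕ,
    (∀ i < k, ⌊z * (r : ℝ) ^ (n + i + 1)⌋ - (r : ℤ) * ⌊z * (r : ℝ) ^ (n + i)⌋ = v i) →
    ⌊z * (r : ℝ) ^ (n + k)⌋ = (r : ℤ) ^ k * ⌊z * (r : ℝ) ^ n⌋ + W := by
  induction k with
  | zero => exact ⟨0, fun n _ => by simp⟩
  | succ k ih =>
    obtain ⟨W, hW⟩ := ih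
    refine ⟨r * W + v k, fun n hn => ?_⟩
    have h1 := hW n (fun i hi => hn i (by omega))
    have h2 := hn k (by omega)
    rw [show n + (k + 1) = n + k + 1 by ring]
    have h3 : ⌊z * (r : ℝ) ^ (n + k + 1)⌋ = (r : ℤ) * ⌊z * (r : ℝ) ^ (n + k)⌋ + v k := by linarith
    rw [h3, h1]; ring

lemma block_near {z : ℝ} {r : ℕ} (hr : 2 ≤ r) {n k : ℕ} {W : ℤ}
    (h : ⌊z * (r : ℝ) ^ (n + k)⌋ = (r : ℤ) ^ k * ⌊z * (r : ℝ) ^ n⌋ + W) :
    |z * (r : ℝ) ^ n - ⌊z * (r : ℝ) ^ n⌋ - (W + 1 / 2) / (r : ℝ) ^ k| ≤ 1 / (2 * (r : ℝ) ^ k) := by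
  have hr1 : (2 : ℝ) ≤ r := by exact_mod_cast hr
  have hrk : (0 : ℝ) < (r : ℝ) ^ k := by positivity
  have h1 := Int.floor_le (z * (r : ℝ) ^ (n + k))
  have h2 := Int.lt_floor_add_one (z * (r : ℝ) ^ (n + k))
  rw [h] at h1 h2
  push_cast at h1 h2
  have e1 : z * (r : ℝ) ^ (n + k) = (r : ℝ) ^ k * (z * (r : ℝ) ^ n) := by rw [pow_add]; ring
  rw [e1] at h1 h2
  rw [show z * (r : ℝ) ^ n - ⌊z * (r : ℝ) ^ n⌋ - (W + 1 / 2) / (r : ℝ) ^ k
    = ((r : ℝ) ^ k * (z * (r : ℝ) ^ n) - (r : ℝ) ^ k * ⌊z * (r : ℝ) ^ n⌋ - W - 1 / 2) / (r : ℝ) ^ k by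
      field_simp; ring]
  rw [abs_div, abs_of_pos hrk, div_le_div_iff₀ hrk (by positivity)]
  have : |(r : ℝ) ^ k * (z * (r : ℝ) ^ n) - (r : ℝ) ^ k * ⌊z * (r : ℝ) ^ n⌋ - W - 1 / 2| ≤ 1 / 2 := by
    rw [abs_le]; constructor <;> linarith
  nlinarith

/-- Fejér type bound -/
lemma fejer_bound {N M : ℕ} (hM : 1 ≤ M) {η : ℝ} (hη : 0 ≤ η) (t : ℕ → ℝ) (c : ℝ)
    (hF : ∀ h : ℕ, 1 ≤ h → h < M → ‖∑ n ∈ range N, e ((h : ℝ) * t n)‖ ≤ η * N)
    (S : Finset ℕ) (hS : S ⊆ range N) (hnear : ∀ n ∈ S, ∃ q : ℤ, |t n - q - c| ≤ 1 / (6 * M)) :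
    (S.card : ℝ) ≤ (4 / M + 4 * η) * N := by
  have hM0 : (0 : ℝ) < M := by exact_mod_cast hM
  have hpi := Real.pi_pos
  -- lower bound
  have hlow : ∀ n ∈ S, (M : ℝ) ^ 2 / 4 ≤ ‖∑ m ∈ range M, e ((m : ℝ) * (t n - c))‖ ^ 2 := by
    intro n hn
    obtain ⟨q, hq⟩ := hnear n hn
    have h1 : (M : ℝ) / 2 ≤ (∑ m ∈ range M, e ((m : ℝ) * (t n - c))).re := by
      rw [Complex.re_sum]
      calc (M : ℝ) / 2 = ∑ m ∈ range M, (1 / 2 : ℝ) := by
            rw [Finset.sum_const, Finset.card_range, nsmul_eq_mul]; ring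
        _ ≤ _ := by
          apply Finset.sum_le_sum
          intro m hm
          rw [Finset.mem_range] at hm
          rw [re_e]
          have e1 : Real.cos (2 * Real.pi * ((m : ℝ) * (t n - c)))
              = Real.cos (2 * Real.pi * ((m : ℝ) * (t n - q - c))) := by
            rw [← Real.cos_sub_int_mul_two_pi _ (m * q)]
            congr 1; push_cast; ring
          rw [e1, ← Real.cos_abs, ← Real.cos_pi_div_three]
          apply Real.cos_le_cos_of_nonneg_of_le_pi (abs_nonneg _) (by linarith)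
          rw [abs_mul, abs_mul, abs_mul, abs_of_pos hpi, Nat.abs_cast]
          have hmM : (m : ℝ) ≤ M := by exact_mod_cast hm.le
          have h5 : (m : ℝ) * |t n - q - c| ≤ M * (1 / (6 * M)) :=
            mul_le_mul hmM hq (abs_nonneg _) hM0.le
          have h6 : (M : ℝ) * (1 / (6 * M)) = 1 / 6 := by field_simp
          rw [h6] at h5
          rw [abs_two]
          nlinarith
    have h2 := h1.trans (Complex.re_le_norm _)
    have h3 : ((M : ℝ) / 2) ^ 2 ≤ ‖∑ m ∈ range M, e ((m : ℝ) * (t n - c))‖ ^ 2 :=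
      pow_le_pow_left₀ (by positivity) h2 2
    calc (M : ℝ) ^ 2 / 4 = ((M : ℝ) / 2) ^ 2 := by ring
      _ ≤ _ := h3
  -- upper bound
  have hup : ∑ n ∈ range N, ‖∑ m ∈ range M, e ((m : ℝ) * (t n - c))‖ ^ 2
      ≤ M * N + M ^ 2 * (η * N) := by
    have key : ((∑ n ∈ range N, ‖∑ m ∈ range M, e ((m : ℝ) * (t n - c))‖ ^ 2 : ℝ) : ℂ)
        = ∑ m ∈ range M, ∑ m' ∈ range M,
          (e ((((m' : ℝ) - m)) * (-c)) * ∑ n ∈ range N, e (((m' : ℝ) - m) * t n)) := by
      rw [Complex.ofReal_sum]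
      have h1 : ∀ n ∈ range N, (((‖∑ m ∈ range M, e ((m : ℝ) * (t n - c))‖ ^ 2 : ℝ)) : ℂ)
          = ∑ m ∈ range M, ∑ m' ∈ range M,
            (e ((((m' : ℝ) - m)) * (-c)) * e (((m' : ℝ) - m) * t n)) := by
        intro n _
        have h2 : ∀ w : ℂ, (((‖w‖ ^ 2 : ℝ)) : ℂ) = (starRingEnd ℂ) w * w := by
          intro w
          rw [← Complex.normSq_eq_norm_sq, Complex.normSq_eq_conj_mul_self]
        rw [h2, map_sum, Finset.sum_mul_sum]
        refine Finset.sum_congr rfl fun m _ => Finset.sum_congr rfl fun m' _ => ?_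
        rw [conj_e, ← e_add, ← e_add]
        congr 1
        ring
      rw [Finset.sum_congr rfl h1, Finset.sum_comm]
      refine Finset.sum_congr rfl fun m _ => ?_
      rw [Finset.sum_comm]
      refine Finset.sum_congr rfl fun m' _ => ?_
      rw [Finset.mul_sum]
    have hnn : 0 ≤ ∑ n ∈ range N, ‖∑ m ∈ range M, e ((m : ℝ) * (t n - c))‖ ^ 2 :=
      Finset.sum_nonneg fun _ _ => by positivity
    have hnorm := congrArg norm key
    rw [Complex.norm_real, Real.norm_of_nonneg hnn] at hnorm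
    rw [hnorm]
    have hb : ∀ m ∈ range M, ∀ m' ∈ range M,
        ‖e ((((m' : ℝ) - m)) * (-c)) * ∑ n ∈ range N, e (((m' : ℝ) - m) * t n)‖
          ≤ (if m = m' then (N : ℝ) else 0) + η * N := by
      intro m hm m' hm'
      rw [Finset.mem_range] at hm hm'
      rw [norm_mul, norm_e, one_mul]
      rcases lt_trichotomy m m' with hlt | heq | hgt
      · rw [if_neg (by omega)]
        have := hF (m' - m) (by omega) (by omega)
        rw [Nat.cast_sub hlt.le] at this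
        linarith
      · subst heq
        rw [if_pos rfl]
        simp only [sub_self, zero_mul, e_zero, Finset.sum_const, Finset.card_range, nsmul_eq_mul,
          mul_one]
        rw [Complex.norm_natCast]
        have : (0 : ℝ) ≤ η * N := by positivity
        linarith
      · rw [if_neg (by omega)]
        have := hF (m - m') (by omega) (by omega)
        rw [Nat.cast_sub hgt.le] at this
        have h6 : ‖∑ n ∈ range N, e (((m' : ℝ) - m) * t n)‖
            = ‖∑ n ∈ range N, e (((m : ℝ) - m') * t n)‖ := by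
          rw [← RCLike.norm_conj, map_sum]
          congr 1
          refine Finset.sum_congr rfl fun n _ => ?_
          rw [conj_e]; congr 1; ring
        rw [h6]; linarith
    calc _ ≤ ∑ m ∈ range M, ∑ m' ∈ range M, ((if m = m' then (N : ℝ) else 0) + η * N) := by
          refine (norm_sum_le _ _).trans (Finset.sum_le_sum fun m hm => ?_)
          exact (norm_sum_le _ _).trans (Finset.sum_le_sum fun m' hm' => hb m hm m' hm')
      _ = M * N + M ^ 2 * (η * N) := by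
          have : ∀ m ∈ range M, ∑ m' ∈ range M, ((if m = m' then (N : ℝ) else 0) + η * N)
              = N + M * (η * N) := by
            intro m hm
            rw [Finset.sum_add_distrib, Finset.sum_ite_eq, if_pos hm]
            simp
          rw [Finset.sum_congr rfl this, Finset.sum_const, Finset.card_range, nsmul_eq_mul]
          ring
  have h7 : (S.card : ℝ) * ((M : ℝ) ^ 2 / 4) ≤ M * N + M ^ 2 * (η * N) := by
    calc (S.card : ℝ) * ((M : ℝ) ^ 2 / 4) = ∑ n ∈ S, (M : ℝ) ^ 2 / 4 := by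
          rw [Finset.sum_const, nsmul_eq_mul]
      _ ≤ ∑ n ∈ S, ‖∑ m ∈ range M, e ((m : ℝ) * (t n - c))‖ ^ 2 := Finset.sum_le_sum hlow
      _ ≤ ∑ n ∈ range N, ‖∑ m ∈ range M, e ((m : ℝ) * (t n - c))‖ ^ 2 :=
        Finset.sum_le_sum_of_subset_of_nonneg hS fun _ _ _ => by positivity
      _ ≤ _ := hup
  have h8 : (S.card : ℝ) * ((M : ℝ) ^ 2 / 4) ≤ ((4 / M + 4 * η) * N) * ((M : ℝ) ^ 2 / 4) := by
    refine h7.trans (le_of_eq ?_)
    field_simp
  exact le_of_mul_le_mul_right h8 (by positivity)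

/-- half circle bound -/
lemma half_bound {N : ℕ} {η : ℝ} (t : ℕ → ℝ) (c : ℝ)
    (hF1 : ‖∑ n ∈ range N, e (t n)‖ ≤ η * N)
    (hF2 : ‖∑ n ∈ range N, e (2 * t n)‖ ≤ η * N)
    (S : Finset ℕ) (hS : S ⊆ range N) (hnear : ∀ n ∈ S, ∃ q : ℤ, |t n - q - c| ≤ 1 / 4) :
    (S.card : ℝ) ≤ (3 / 4 + η) * N := by
  have hpi := Real.pi_pos
  set u : ℕ → ℝ := fun n => Real.cos (2 * Real.pi * (t n - c)) with hu
  have hu1 : ∀ n, u n ≤ 1 := fun n => Real.cos_le_one _
  have hu2 : ∀ n, -1 ≤ u n := fun n => Real.neg_one_le_cos _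
  have hlow : ∀ n ∈ S, (1 : ℝ) ≤ 1 + u n / 2 - u n ^ 2 / 2 := by
    intro n hn
    obtain ⟨q, hq⟩ := hnear n hn
    have h0 : 0 ≤ u n := by
      have e1 : u n = Real.cos (2 * Real.pi * (t n - q - c)) := by
        rw [hu]; simp only
        rw [← Real.cos_sub_int_mul_two_pi _ q]
        congr 1; ring
      rw [e1, ← Real.cos_abs]
      apply Real.cos_nonneg_of_mem_Icc
      rw [abs_mul, abs_mul, abs_of_pos hpi, abs_two]
      constructor
      · have := abs_nonneg (t n - q - c)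
        have h9 : 0 ≤ 2 * Real.pi * |t n - q - c| := by positivity
        linarith
      · nlinarith
    nlinarith [hu1 n]
  have hpos : ∀ n, 0 ≤ 1 + u n / 2 - u n ^ 2 / 2 := by
    intro n; nlinarith [hu1 n, hu2 n]
  have hs1 : ∑ n ∈ range N, u n ≤ η * N := by
    have : ∑ n ∈ range N, u n = (e (-c) * ∑ n ∈ range N, e (t n)).re := by
      rw [Finset.mul_sum, Complex.re_sum]
      refine Finset.sum_congr rfl fun n _ => ?_
      rw [← e_add, re_e]; rw [hu]; simp only; congr 1; ring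
    rw [this]
    refine (Complex.re_le_norm _).trans ?_
    rw [norm_mul, norm_e, one_mul]; exact hF1
  have hs2 : -(η * N) ≤ ∑ n ∈ range N, (2 * u n ^ 2 - 1) := by
    have : ∑ n ∈ range N, (2 * u n ^ 2 - 1) = (e (-2 * c) * ∑ n ∈ range N, e (2 * t n)).re := by
      rw [Finset.mul_sum, Complex.re_sum]
      refine Finset.sum_congr rfl fun n _ => ?_
      rw [← e_add, re_e]; rw [hu]; simp only
      rw [← Real.cos_two_mul]; congr 1; ring
    rw [this]
    have h3 := Complex.abs_re_le_norm (e (-2 * c) * ∑ n ∈ range N, e (2 * t n))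
    rw [norm_mul, norm_e, one_mul] at h3
    have h4 := neg_abs_le (e (-2 * c) * ∑ n ∈ range N, e (2 * t n)).re
    linarith
  have hsum : ∑ n ∈ range N, (1 + u n / 2 - u n ^ 2 / 2)
      = 3 / 4 * N + (∑ n ∈ range N, u n) / 2 - (∑ n ∈ range N, (2 * u n ^ 2 - 1)) / 4 := by
    rw [Finset.sum_div, Finset.sum_div]
    have : (3 / 4 * N : ℝ) = ∑ n ∈ range N, (3 / 4 : ℝ) := by
      rw [Finset.sum_const, Finset.card_range, nsmul_eq_mul]; ring
    rw [this, ← Finset.sum_add_distrib, ← Finset.sum_sub_distrib]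
    refine Finset.sum_congr rfl fun n _ => ?_
    ring
  calc (S.card : ℝ) = ∑ n ∈ S, (1 : ℝ) := by simp
    _ ≤ ∑ n ∈ S, (1 + u n / 2 - u n ^ 2 / 2) := Finset.sum_le_sum hlow
    _ ≤ ∑ n ∈ range N, (1 + u n / 2 - u n ^ 2 / 2) :=
      Finset.sum_le_sum_of_subset_of_nonneg hS fun n _ _ => hpos n
    _ ≤ (3 / 4 + η) * N := by
      rw [hsum]
      have := (norm_nonneg _).trans hF1
      linarith

/-- entropy lower bound from a uniform upper bound of the masses -/
lemma entropy_lower {ι : Type*} [Fintype ι] (p : ι → ℝ) {ρ : ℝ} (hρ : 0 < ρ)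
    (h0 : ∀ w, 0 ≤ p w) (h1 : ∀ w, p w ≤ ρ) (hs : ∑ w, p w = 1) :
    -Real.log ρ ≤ ∑ w, Real.negMulLog (p w) := by
  calc -Real.log ρ = ∑ w, p w * (-Real.log ρ) := by rw [← Finset.sum_mul, hs, one_mul]
    _ ≤ ∑ w, Real.negMulLog (p w) := by
      apply Finset.sum_le_sum
      intro w _
      unfold Real.negMulLog
      rcases eq_or_lt_of_le (h0 w) with h | h
      · rw [← h]; simp
      · have := Real.log_le_log h (h1 w)
        nlinarith

end

end Pool.Agent.H252.IrrMul
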