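import Pool.Agent.H252.IrrMulD

set_option autoImplicit false

namespace Pool.Agent.H252.IrrMul

open Finset

noncomputable section

lemma norm_e_sub_le (s t : ℝ) : ‖e s - e t‖ ≤ 2 * Real.pi * |s - t| := by
  have h1 : e s - e t = e t * (e (s - t) - 1) := by
    rw [mul_sub, ← e_add, mul_one]; congr 2; ring
  rw [h1, norm_mul, norm_e, one_mul]
  unfold e
  have := Real.norm_exp_I_mul_ofReal_sub_one_le (x := 2 * Real.pi * (s - t))
  rw [mul_comm] at this
  refine this.trans ?_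
  rw [Real.norm_eq_abs, abs_mul, abs_of_pos (by positivity)]

lemma step' {r : ℕ} (hr : 2 ≤ r) {b : ℝ} (hb : Irrational b) (k : ℕ) (s : Finset ℕ × ℕ) :
    ∃ s' : Finset ℕ × ℕ, ∃ G : Finset ℕ, G ⊆ pos (2 ^ k) s.2 s'.2 ∧ s'.1 = s.1 ∪ G ∧ s.2 < s'.2 ∧
      ∀ h : ℕ, 1 ≤ h → h ≤ k → ‖∑ n ∈ range s'.2,
        e ((h : ℝ) * b * (r : ℝ) ^ n * (∑ j ∈ s.1, ((r : ℝ)⁻¹) ^ j + ∑ j ∈ G, ((r : ℝ)⁻¹) ^ j))‖
          ≤ 1 / ((k : ℝ) + 1) * s'.2 := by
  classical
  obtain ⟨N1, h1, _, G, h2, h3⟩ := step hr hb (L := 2 ^ k) Nat.one_le_two_pow k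
    (η := 1 / ((k : ℝ) + 1)) (by positivity) (∑ j ∈ s.1, ((r : ℝ)⁻¹) ^ j) s.2 0
  exact ⟨(s.1 ∪ G, N1), G, h2, rfl, h1, h3⟩

/-- the structure produced by the recursion -/
lemma exists_seq {r : ℕ} (hr : 2 ≤ r) {b : ℝ} (hb : Irrational b) :
    ∃ (F : ℕ → Finset ℕ) (N : ℕ → ℕ), F 0 = ∅ ∧ ∀ k, ∃ G : Finset ℕ,
      G ⊆ pos (2 ^ k) (N k) (N (k + 1)) ∧ F (k + 1) = F k ∪ G ∧ N k < N (k + 1) ∧
      ∀ h : ℕ, 1 ≤ h → h ≤ k → ‖∑ n ∈ range (N (k + 1)),
        e ((h : ℝ) * b * (r : ℝ) ^ n * (∑ j ∈ F k, ((r : ℝ)⁻¹) ^ j + ∑ j ∈ G, ((r : ℝ)⁻¹) ^ j))‖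
          ≤ 1 / ((k : ℝ) + 1) * (N (k + 1)) := by
  classical
  choose nx hnx using fun k s => step' hr hb k s
  let st : ℕ → Finset ℕ × ℕ := fun k => Nat.rec (∅, 0) (fun k s => nx k s) k
  refine ⟨fun k => (st k).1, fun k => (st k).2, rfl, fun k => ?_⟩
  exact hnx k (st k)

/-- Core existence theorem. -/
theorem core {r : ℕ} (hr : 2 ≤ r) {b : ℝ} (hb : Irrational b) :
    ∃ (y : ℝ) (N : ℕ → ℕ), StrictMono N ∧
      (∀ h : ℕ, 1 ≤ h → ∀ ε : ℝ, 0 < ε → ∃ k₀ : ℕ, ∀ k, k₀ ≤ k →
        ‖∑ n ∈ range (N k), e ((h : ℝ) * (b * y * (r : ℝ) ^ n))‖ ≤ ε * N k) ∧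
      (∀ ε : ℝ, 0 < ε → ∃ N₀ : ℕ, ∀ M : ℕ, N₀ ≤ M →
        (((range M).filter (fun n => ⌊y * (r : ℝ) ^ (n + 1)⌋ - (r : ℤ) * ⌊y * (r : ℝ) ^ n⌋ ≠ 0)).card : ℝ)
          ≤ ε * M) := by
  classical
  obtain ⟨F, N, hF0, hstep⟩ := exists_seq hr hb
  choose G hG1 hG2 hG3 hG4 using hstep
  have hr1 : (2 : ℝ) ≤ r := by exact_mod_cast hr
  have hr0 : (0 : ℝ) < r := by linarith
  have hri0 : (0 : ℝ) < (r : ℝ)⁻¹ := by positivity
  have hri1 : (r : ℝ)⁻¹ ≤ 1 / 2 := by
    rw [inv_eq_one_div]; exact one_div_le_one_div_of_le (by norm_num) hr1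
  have hNmono : StrictMono N := strictMono_nat_of_lt_succ hG3
  have hFmono : Monotone F := monotone_nat_of_le_succ fun k => by
    rw [hG2]; exact Finset.subset_union_left
  have hFle : ∀ k, ∀ j ∈ F k, j ≤ N k := by
    intro k
    induction k with
    | zero => intro j hj; rw [hF0] at hj; simp at hj
    | succ k ih =>
      intro j hj
      rw [hG2, Finset.mem_union] at hj
      rcases hj with hj | hj
      · exact (ih j hj).trans (hG3 k).le
      · have := hG1 k hj
        unfold pos at this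
        rw [Finset.mem_filter, Finset.mem_Ioc] at this
        exact this.1.2
  have hdiv : ∀ k m, ∀ j ∈ F m, N k < j → 2 ^ k ∣ j := by
    intro k m
    induction m with
    | zero => intro j hj; rw [hF0] at hj; simp at hj
    | succ m ih =>
      intro j hj hlt
      rw [hG2, Finset.mem_union] at hj
      rcases hj with hj | hj
      · exact ih j hj hlt
      · have := hG1 m hj
        unfold pos at this
        rw [Finset.mem_filter, Finset.mem_Ioc] at this
        have hkm : k ≤ m := by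
          by_contra hcon
          have : N (m + 1) ≤ N k := hNmono.monotone (by omega)
          omega
        exact (pow_dvd_pow 2 hkm).trans this.2
  have hmem : ∀ k m, ∀ j ∈ F m, j ≤ N k → j ∈ F k := by
    intro k m
    induction m with
    | zero => intro j hj; rw [hF0] at hj; simp at hj
    | succ m ih =>
      intro j hj hle
      rcases Nat.lt_or_ge m k with hlt | hge
      · exact hFmono (show m + 1 ≤ k by omega) hj
      · rw [hG2, Finset.mem_union] at hj
        rcases hj with hj | hj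
        · exact ih j hj hle
        · have := hG1 m hj
          unfold pos at this
          rw [Finset.mem_filter, Finset.mem_Ioc] at this
          have : N k ≤ N m := hNmono.monotone hge
          omega
  set S : Set ℕ := {j | ∃ k, j ∈ F k} with hS
  set f : ℕ → ℝ := fun j => if j ∈ S then ((r : ℝ)⁻¹) ^ j else 0 with hf
  have hf0 : ∀ j, 0 ≤ f j := by
    intro j; rw [hf]; simp only; split_ifs <;> positivity
  have hf1 : ∀ j, f j ≤ ((r : ℝ)⁻¹) ^ j := by
    intro j; rw [hf]; simp only; split_ifs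
    · exact le_rfl
    · positivity
  have hgs : Summable (fun j : ℕ => ((r : ℝ)⁻¹) ^ j) :=
    summable_geometric_of_lt_one hri0.le (by linarith)
  have hfs : Summable f := Summable.of_nonneg_of_le hf0 hf1 hgs
  set y : ℝ := ∑' j, f j with hy
  have htail : ∀ M : ℕ, 0 ≤ y - ∑ j ∈ range (M + 1), f j ∧
      y - ∑ j ∈ range (M + 1), f j ≤ ((r : ℝ)⁻¹) ^ M := by
    intro M
    have h1 := hfs.sum_add_tsum_nat_add (M + 1)
    have h2 : y - ∑ j ∈ range (M + 1), f j = ∑' j, f (j + (M + 1)) := by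
      rw [hy, ← h1]; ring
    rw [h2]
    refine ⟨tsum_nonneg fun j => hf0 _, ?_⟩
    calc ∑' j, f (j + (M + 1)) ≤ ∑' j : ℕ, ((r : ℝ)⁻¹) ^ (M + 1) * ((r : ℝ)⁻¹) ^ j := by
          apply Summable.tsum_le_tsum
          · intro j
            refine (hf1 _).trans (le_of_eq ?_)
            rw [← pow_add]; congr 1; ring
          · exact (summable_nat_add_iff (M + 1)).mpr hfs
          · exact hgs.mul_left _
      _ = ((r : ℝ)⁻¹) ^ (M + 1) * (1 - (r : ℝ)⁻¹)⁻¹ := by
          rw [tsum_mul_left, tsum_geometric_of_lt_one hri0.le (by linarith)]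
      _ ≤ ((r : ℝ)⁻¹) ^ M := by
          rw [← div_eq_mul_inv, div_le_iff₀ (by linarith), pow_succ]
          have : (0 : ℝ) < ((r : ℝ)⁻¹) ^ M := by positivity
          nlinarith
  have hfsum : ∀ k, ∑ j ∈ range (N k + 1), f j = ∑ j ∈ F k, ((r : ℝ)⁻¹) ^ j := by
    intro k
    rw [hf]
    rw [← Finset.sum_filter]
    congr 1
    ext j
    rw [Finset.mem_filter, Finset.mem_range]
    constructor
    · rintro ⟨h1, m, h2⟩
      exact hmem k m j h2 (by omega)
    · intro hj
      exact ⟨by have := hFle k j hj; omega, k, hj⟩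
  refine ⟨y, fun k => N (k + 1), fun a b hab => hNmono (by omega), ?_, ?_⟩
  · intro h hh ε hε
    obtain ⟨K, hK⟩ := exists_nat_gt ((1 + 2 * Real.pi * (h * |b|)) / ε)
    refine ⟨K + h, fun k hk => ?_⟩
    have hNk : (k : ℝ) + 1 ≤ N (k + 1) := by
      have : k + 1 ≤ N (k + 1) := hNmono.id_le (k + 1)
      exact_mod_cast this
    have hNpos : (0 : ℝ) < N (k + 1) := by
      have : (0 : ℝ) ≤ k := by positivity
      linarith
    have hKk : (K : ℝ) ≤ k := by
      have : K ≤ k := by omega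
      exact_mod_cast this
    set yk : ℝ := ∑ j ∈ F k, ((r : ℝ)⁻¹) ^ j + ∑ j ∈ G k, ((r : ℝ)⁻¹) ^ j with hyk
    have hdisj : Disjoint (F k) (G k) := by
      rw [Finset.disjoint_left]
      intro j h1 h2
      have h3 := hFle k j h1
      have := hG1 k h2
      unfold pos at this
      rw [Finset.mem_filter, Finset.mem_Ioc] at this
      omega
    have hyk2 : yk = ∑ j ∈ range (N (k + 1) + 1), f j := by
      rw [hfsum, hG2, Finset.sum_union hdisj]
    have hd1 := htail (N (k + 1))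
    rw [← hyk2] at hd1
    have hmain := hG4 k h hh (by omega)
    have hdiff : ‖(∑ n ∈ range (N (k + 1)), e ((h : ℝ) * (b * y * (r : ℝ) ^ n)))
        - ∑ n ∈ range (N (k + 1)), e ((h : ℝ) * b * (r : ℝ) ^ n * yk)‖
        ≤ 2 * Real.pi * (h * |b|) := by
      rw [← Finset.sum_sub_distrib]
      refine (norm_sum_le _ _).trans ?_
      calc ∑ n ∈ range (N (k + 1)), ‖e ((h : ℝ) * (b * y * (r : ℝ) ^ n))
              - e ((h : ℝ) * b * (r : ℝ) ^ n * yk)‖
          ≤ ∑ n ∈ range (N (k + 1)), 2 * Real.pi * (h * |b|) * (((r : ℝ)⁻¹) ^ (N (k + 1)) * (r : ℝ) ^ n) := by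
            apply Finset.sum_le_sum
            intro n _
            refine (norm_e_sub_le _ _).trans ?_
            have h5 : (h : ℝ) * (b * y * (r : ℝ) ^ n) - (h : ℝ) * b * (r : ℝ) ^ n * yk
                = (h * b) * ((y - yk) * (r : ℝ) ^ n) := by ring
            rw [h5, abs_mul, abs_mul, abs_mul, Nat.abs_cast, abs_of_nonneg hd1.1,
              abs_of_pos (show (0 : ℝ) < (r : ℝ) ^ n by positivity)]
            have h6 : (y - yk) * (r : ℝ) ^ n ≤ ((r : ℝ)⁻¹) ^ (N (k + 1)) * (r : ℝ) ^ n :=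
              mul_le_mul_of_nonneg_right hd1.2 (by positivity)
            have h7 : 0 ≤ 2 * Real.pi * (h * |b|) := by positivity
            calc 2 * Real.pi * (h * |b| * ((y - yk) * (r : ℝ) ^ n))
                = 2 * Real.pi * (h * |b|) * ((y - yk) * (r : ℝ) ^ n) := by ring
              _ ≤ _ := mul_le_mul_of_nonneg_left h6 h7
        _ = 2 * Real.pi * (h * |b|) * (((r : ℝ)⁻¹) ^ (N (k + 1)) * ∑ n ∈ range (N (k + 1)), (r : ℝ) ^ n) := by
            rw [Finset.mul_sum, Finset.mul_sum]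
        _ ≤ 2 * Real.pi * (h * |b|) * 1 := by
            apply mul_le_mul_of_nonneg_left _ (by positivity)
            have h8 := geom_sum_mul (r : ℝ) (N (k + 1))
            have h9 : ∑ n ∈ range (N (k + 1)), (r : ℝ) ^ n ≤ (r : ℝ) ^ (N (k + 1)) := by
              have h10 : (0 : ℝ) ≤ ∑ n ∈ range (N (k + 1)), (r : ℝ) ^ n :=
                Finset.sum_nonneg fun _ _ => by positivity
              nlinarith
            calc ((r : ℝ)⁻¹) ^ (N (k + 1)) * ∑ n ∈ range (N (k + 1)), (r : ℝ) ^ n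
                ≤ ((r : ℝ)⁻¹) ^ (N (k + 1)) * (r : ℝ) ^ (N (k + 1)) := by gcongr
              _ = 1 := by rw [← mul_pow, inv_mul_cancel₀ hr0.ne', one_pow]
        _ = _ := mul_one _
    have htot : ‖∑ n ∈ range (N (k + 1)), e ((h : ℝ) * (b * y * (r : ℝ) ^ n))‖
        ≤ 1 / ((k : ℝ) + 1) * (N (k + 1)) + 2 * Real.pi * (h * |b|) := by
      have h11 := norm_add_le ((∑ n ∈ range (N (k + 1)), e ((h : ℝ) * (b * y * (r : ℝ) ^ n)))
        - ∑ n ∈ range (N (k + 1)), e ((h : ℝ) * b * (r : ℝ) ^ n * yk))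
        (∑ n ∈ range (N (k + 1)), e ((h : ℝ) * b * (r : ℝ) ^ n * yk))
      rw [sub_add_cancel] at h11
      linarith
    refine htot.trans ?_
    rw [div_lt_iff₀ hε] at hK
    have h12 : 2 * Real.pi * (h * |b|) ≤ (2 * Real.pi * (h * |b|)) / ((k : ℝ) + 1) * N (k + 1) := by
      rw [div_mul_eq_mul_div, le_div_iff₀ (by positivity)]
      apply mul_le_mul_of_nonneg_left hNk (by positivity)
    calc 1 / ((k : ℝ) + 1) * (N (k + 1)) + 2 * Real.pi * (h * |b|)
        ≤ 1 / ((k : ℝ) + 1) * (N (k + 1)) + (2 * Real.pi * (h * |b|)) / ((k : ℝ) + 1) * N (k + 1) := by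
          linarith
      _ = (1 + 2 * Real.pi * (h * |b|)) / ((k : ℝ) + 1) * N (k + 1) := by ring
      _ ≤ ε * N (k + 1) := by
          apply mul_le_mul_of_nonneg_right _ hNpos.le
          rw [div_le_iff₀ (by positivity)]
          nlinarith
  · intro ε hε
    -- digits
    have hdig : ∀ n, n + 1 ∉ S → n + 2 ∉ S →
        ⌊y * (r : ℝ) ^ (n + 1)⌋ - (r : ℤ) * ⌊y * (r : ℝ) ^ n⌋ = 0 := by
      intro n h1 h2
      obtain ⟨ht1, ht2⟩ := htail (n + 2)
      have hs : ∑ j ∈ range (n + 2 + 1), f j = ∑ j ∈ range (n + 1), f j := by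
        rw [Finset.sum_range_succ, Finset.sum_range_succ]
        have e1 : f (n + 1) = 0 := by rw [hf]; simp only; rw [if_neg h1]
        have e2 : f (n + 2) = 0 := by rw [hf]; simp only; rw [if_neg h2]
        rw [e1, e2]; ring
      rw [hs] at ht1 ht2
      set A : ℕ := ∑ j ∈ range (n + 1), (if j ∈ S then r ^ (n - j) else 0) with hA
      have hAr : (A : ℝ) = (∑ j ∈ range (n + 1), f j) * (r : ℝ) ^ n := by
        rw [hA, Finset.sum_mul]
        push_cast
        refine Finset.sum_congr rfl fun j hj => ?_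
        rw [Finset.mem_range] at hj
        rw [hf]; simp only
        split_ifs
        · have : (r : ℝ) ^ n = (r : ℝ) ^ j * (r : ℝ) ^ (n - j) := by
            rw [← pow_add]; congr 1; omega
          rw [this, ← mul_assoc, ← mul_pow, inv_mul_cancel₀ hr0.ne', one_pow, one_mul]
        · simp
      set τ : ℝ := (y - ∑ j ∈ range (n + 1), f j) * (r : ℝ) ^ n with hτ
      have hyn : y * (r : ℝ) ^ n = A + τ := by rw [hAr, hτ]; ring
      have hτ0 : 0 ≤ τ := mul_nonneg ht1 (by positivity)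
      have hτ1 : τ ≤ ((r : ℝ)⁻¹) ^ 2 := by
        calc τ ≤ ((r : ℝ)⁻¹) ^ (n + 2) * (r : ℝ) ^ n := mul_le_mul_of_nonneg_right ht2 (by positivity)
          _ = ((r : ℝ)⁻¹) ^ 2 := by
            rw [pow_add, mul_right_comm, ← mul_pow, inv_mul_cancel₀ hr0.ne', one_pow, one_mul]
      have hτ2 : τ * r < 1 := by
        calc τ * r ≤ ((r : ℝ)⁻¹) ^ 2 * r := by gcongr
          _ = (r : ℝ)⁻¹ := by field_simp
          _ < 1 := by linarith
      have hf1 : ⌊y * (r : ℝ) ^ n⌋ = (A : ℤ) := by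
        rw [Int.floor_eq_iff, hyn]
        push_cast
        constructor
        · linarith
        · nlinarith
      have hf2 : ⌊y * (r : ℝ) ^ (n + 1)⌋ = (r : ℤ) * (A : ℤ) := by
        rw [Int.floor_eq_iff, pow_succ, ← mul_assoc, hyn]
        push_cast
        constructor
        · nlinarith
        · nlinarith
      rw [hf1, hf2]; ring
    obtain ⟨k, hk⟩ := exists_pow_lt_of_lt_one (show (0 : ℝ) < ε / 4 by positivity)
      (show (1 / 2 : ℝ) < 1 by norm_num)
    obtain ⟨K, hK⟩ := exists_nat_gt ((2 * N k + 1 + ε) / (ε / 2))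
    refine ⟨K, fun M hM => ?_⟩
    have hcount : ((range M).filter (fun n => ⌊y * (r : ℝ) ^ (n + 1)⌋
        - (r : ℤ) * ⌊y * (r : ℝ) ^ n⌋ ≠ 0)).card ≤ 2 * N k + 1 + 2 * ((M + 1) / 2 ^ k) := by
      have hsub : (range M).filter (fun n => ⌊y * (r : ℝ) ^ (n + 1)⌋
          - (r : ℤ) * ⌊y * (r : ℝ) ^ n⌋ ≠ 0)
          ⊆ (range (N k)) ∪ ((range (M + 1)).filter (fun n => 2 ^ k ∣ n + 1))
            ∪ (((range (M + 1)).filter (fun n => 2 ^ k ∣ n + 1)).image (fun n => n - 1)) := by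
        intro n hn
        rw [Finset.mem_filter, Finset.mem_range] at hn
        have h3 : n + 1 ∈ S ∨ n + 2 ∈ S := by
          by_contra hcon
          push Not at hcon
          exact hn.2 (hdig n hcon.1 hcon.2)
        rw [Finset.mem_union, Finset.mem_union, Finset.mem_range]
        by_cases h4 : n < N k
        · left; left; exact h4
        · rcases h3 with ⟨m, h5⟩ | ⟨m, h5⟩
          · left; right
            rw [Finset.mem_filter, Finset.mem_range]
            exact ⟨by omega, hdiv k m _ h5 (by omega)⟩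
          · right
            rw [Finset.mem_image]
            refine ⟨n + 1, ?_, by omega⟩
            rw [Finset.mem_filter, Finset.mem_range]
            exact ⟨by omega, hdiv k m _ h5 (by omega)⟩
      calc _ ≤ _ := Finset.card_le_card hsub
        _ ≤ _ := Finset.card_union_le _ _
        _ ≤ (N k + (M + 1) / 2 ^ k) + (M + 1) / 2 ^ k := by
          have h6 := Nat.card_multiples (M + 1) (2 ^ k)
          have h7 := Finset.card_union_le (range (N k)) ((range (M + 1)).filter (fun n => 2 ^ k ∣ n + 1))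
          have h8 := Finset.card_image_le (s := (range (M + 1)).filter (fun n => 2 ^ k ∣ n + 1))
            (f := fun n => n - 1)
          rw [Finset.card_range] at h7
          omega
        _ ≤ _ := by omega
    have hdivle : (((M + 1) / 2 ^ k : ℕ) : ℝ) ≤ (M + 1) * (1 / 2) ^ k := by
      have := Nat.cast_div_le (m := M + 1) (n := 2 ^ k) (α := ℝ)
      refine this.trans (le_of_eq ?_)
      push_cast
      rw [one_div, inv_pow, div_eq_mul_inv]
    have hKM : (K : ℝ) ≤ M := by exact_mod_cast hM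
    rw [div_lt_iff₀ (by positivity)] at hK
    have hMp : (1 : ℝ) ≤ M + 1 := by
      have : (0 : ℝ) ≤ M := by positivity
      linarith
    calc (((range M).filter (fun n => ⌊y * (r : ℝ) ^ (n + 1)⌋
        - (r : ℤ) * ⌊y * (r : ℝ) ^ n⌋ ≠ 0)).card : ℝ)
        ≤ ((2 * N k + 1 + 2 * ((M + 1) / 2 ^ k) : ℕ) : ℝ) := by exact_mod_cast hcount
      _ = 2 * N k + 1 + 2 * (((M + 1) / 2 ^ k : ℕ) : ℝ) := by push_cast; ring
      _ ≤ 2 * N k + 1 + 2 * ((M + 1) * (1 / 2) ^ k) := by linarith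
      _ ≤ ε * M := by
        have h9 : (M + 1 : ℝ) * (1 / 2) ^ k ≤ (M + 1) * (ε / 4) :=
          mul_le_mul_of_nonneg_left hk.le (by linarith)
        have h10 : (K : ℝ) * (ε / 2) ≤ M * (ε / 2) := by gcongr
        nlinarith

end

end Pool.Agent.H252.IrrMul
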