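import Pool.Agent.H252.IrrMulE

set_option autoImplicit false

namespace Pool.Agent.H252.IrrMul

open Finset

noncomputable section

/-- number of `n < N` at which the block `w` occurs in the base-`r` digits of `z`. -/
def cnt (r k N : ℕ) (z : ℝ) (w : Fin k → Fin r) : ℕ :=
  ((Finset.range N).filter (fun n => ∀ i : Fin k,
    ⌊z * (r : ℝ) ^ (n + (i : ℕ) + 1)⌋ - (r : ℤ) * ⌊z * (r : ℝ) ^ (n + (i : ℕ))⌋
      = ((w i : ℕ) : ℤ))).card

lemma digit_range {r : ℕ} (hr : 2 ≤ r) (z : ℝ) (n : ℕ) :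
    0 ≤ ⌊z * (r : ℝ) ^ (n + 1)⌋ - (r : ℤ) * ⌊z * (r : ℝ) ^ n⌋ ∧
      ⌊z * (r : ℝ) ^ (n + 1)⌋ - (r : ℤ) * ⌊z * (r : ℝ) ^ n⌋ < r := by
  have hr1 : (2 : ℝ) ≤ r := by exact_mod_cast hr
  have h1 := Int.floor_le (z * (r : ℝ) ^ n)
  have h2 := Int.lt_floor_add_one (z * (r : ℝ) ^ n)
  have h3 : z * (r : ℝ) ^ (n + 1) = r * (z * (r : ℝ) ^ n) := by rw [pow_succ]; ring
  constructor
  · have : (r : ℤ) * ⌊z * (r : ℝ) ^ n⌋ ≤ ⌊z * (r : ℝ) ^ (n + 1)⌋ := by
      rw [Int.le_floor, h3]; push_cast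
      nlinarith
    linarith
  · have : ⌊z * (r : ℝ) ^ (n + 1)⌋ < (r : ℤ) * ⌊z * (r : ℝ) ^ n⌋ + r := by
      rw [Int.floor_lt, h3]; push_cast
      nlinarith
    linarith

lemma sum_cnt {r : ℕ} (hr : 2 ≤ r) (k N : ℕ) (z : ℝ) : ∑ w : Fin k → Fin r, cnt r k N z w = N := by
  classical
  have hr0 : 0 < r := by omega
  let blk : ℕ → (Fin k → Fin r) := fun n i =>
    ⟨(⌊z * (r : ℝ) ^ (n + (i : ℕ) + 1)⌋ - (r : ℤ) * ⌊z * (r : ℝ) ^ (n + (i : ℕ))⌋).toNat, by
      have := digit_range hr z (n + (i : ℕ))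
      omega⟩
  have h1 : ∀ w : Fin k → Fin r, cnt r k N z w = ((range N).filter (fun n => blk n = w)).card := by
    intro w
    unfold cnt
    congr 1
    apply Finset.filter_congr
    intro n _
    constructor
    · intro h
      funext i
      apply Fin.ext
      have h2 := h i
      have h3 := digit_range hr z (n + (i : ℕ))
      show (⌊z * (r : ℝ) ^ (n + (i : ℕ) + 1)⌋ - (r : ℤ) * ⌊z * (r : ℝ) ^ (n + (i : ℕ))⌋).toNat = _
      omega
    · intro h i
      have h3 := digit_range hr z (n + (i : ℕ))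
      have h4 : ((blk n i : Fin r) : ℕ) = (w i : ℕ) := by rw [h]
      have h5 : ((blk n i : Fin r) : ℕ)
        = (⌊z * (r : ℝ) ^ (n + (i : ℕ) + 1)⌋ - (r : ℤ) * ⌊z * (r : ℝ) ^ (n + (i : ℕ))⌋).toNat := rfl
      omega
  rw [Finset.sum_congr rfl (fun w _ => h1 w)]
  rw [← Finset.card_eq_sum_card_fiberwise (f := blk) (s := range N) (t := Finset.univ)
    (fun _ _ => Finset.mem_coe.mpr (Finset.mem_univ _))]
  exact Finset.card_range N

/-- lower entropy bound along the sequence `N` -/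
lemma entropy_large {r : ℕ} (hr : 2 ≤ r) {z : ℝ} {N : ℕ → ℕ} (hN : StrictMono N)
    (hF : ∀ h : ℕ, 1 ≤ h → ∀ ε : ℝ, 0 < ε → ∃ k₀ : ℕ, ∀ k, k₀ ≤ k →
        ‖∑ n ∈ range (N k), e ((h : ℝ) * (z * (r : ℝ) ^ n))‖ ≤ ε * N k)
    (κ : ℕ) (hκ : 1 ≤ κ) (N₀ : ℕ) :
    ∃ M, N₀ ≤ M ∧ Real.log (5 / 4) / 6 * κ
      < ∑ w : Fin κ → Fin r, Real.negMulLog ((cnt r κ M z w : ℝ) / M) := by
  classical
  have hr1 : (2 : ℝ) ≤ r := by exact_mod_cast hr
  -- uniform smallness
  have hunif : ∀ (H : ℕ) (ε : ℝ), 0 < ε → ∃ k₀ : ℕ, ∀ k, k₀ ≤ k → ∀ h : ℕ, 1 ≤ h → h ≤ H →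
      ‖∑ n ∈ range (N k), e ((h : ℝ) * (z * (r : ℝ) ^ n))‖ ≤ ε * N k := by
    intro H ε hε
    induction H with
    | zero => exact ⟨0, fun k _ h h1 h2 => by omega⟩
    | succ H ih =>
      obtain ⟨k1, hk1⟩ := ih
      obtain ⟨k2, hk2⟩ := hF (H + 1) (by omega) ε hε
      refine ⟨max k1 k2, fun k hk h h1 h2 => ?_⟩
      have hm1 := le_max_left k1 k2
      have hm2 := le_max_right k1 k2
      rcases Nat.lt_or_ge h (H + 1) with hlt | hge
      · exact hk1 k (by omega) h h1 (by omega)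
      · have : h = H + 1 := by omega
        subst this
        exact hk2 k (by omega)
  have hlog : 0 < Real.log (5 / 4) := Real.log_pos (by norm_num)
  -- each block set is close to a centre
  have hcentre : ∀ w : Fin κ → Fin r, ∃ c : ℝ, ∀ n : ℕ, (∀ i : Fin κ,
      ⌊z * (r : ℝ) ^ (n + (i : ℕ) + 1)⌋ - (r : ℤ) * ⌊z * (r : ℝ) ^ (n + (i : ℕ))⌋
      = ((w i : ℕ) : ℤ)) → ∃ q : ℤ, |z * (r : ℝ) ^ n - q - c| ≤ 1 / (2 * (r : ℝ) ^ κ) := by
    intro w
    obtain ⟨W, hW⟩ := floor_block z r (fun i => if h : i < κ then ((w ⟨i, h⟩ : ℕ) : ℤ) else 0) κ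
    refine ⟨(W + 1 / 2) / (r : ℝ) ^ κ, fun n hn => ⟨⌊z * (r : ℝ) ^ n⌋, ?_⟩⟩
    apply block_near hr
    apply hW
    intro i hi
    rw [dif_pos hi]
    exact hn ⟨i, hi⟩
  have hent : ∀ (M : ℕ) (ρ : ℝ), 0 < M → 0 < ρ → (∀ w : Fin κ → Fin r, (cnt r κ M z w : ℝ) ≤ ρ * M) →
      -Real.log ρ ≤ ∑ w : Fin κ → Fin r, Real.negMulLog ((cnt r κ M z w : ℝ) / M) := by
    intro M ρ hM hρ hb
    have hM' : (0 : ℝ) < M := by exact_mod_cast hM
    apply entropy_lower _ hρ
    · intro w; positivity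
    · intro w; rw [div_le_iff₀ hM']; exact hb w
    · rw [← Finset.sum_div, div_eq_one_iff_eq hM'.ne']
      exact_mod_cast sum_cnt hr κ M z
  have h2κ : (2 : ℝ) ^ κ ≤ (r : ℝ) ^ κ := pow_le_pow_left₀ (by norm_num) hr1 κ
  rcases Nat.lt_or_ge κ 6 with hsmall | hbig
  · -- small κ : half circle bound
    obtain ⟨k₀, hk₀⟩ := hunif 2 (1 / 20) (by norm_num)
    set k := k₀ + N₀ + 1 with hk
    have hNk : k ≤ N k := hN.id_le k
    refine ⟨N k, by omega, ?_⟩
    have hb : ∀ w : Fin κ → Fin r, (cnt r κ (N k) z w : ℝ) ≤ (4 / 5) * N k := by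
      intro w
      obtain ⟨c, hc⟩ := hcentre w
      have := half_bound (N := N k) (η := 1 / 20) (fun n => z * (r : ℝ) ^ n) c
        (by simpa using hk₀ k (by omega) 1 (by omega) (by omega))
        (by have := hk₀ k (by omega) 2 (by omega) (by omega)
            rw [Nat.cast_ofNat] at this
            exact this)
        _ (Finset.filter_subset (fun n => ∀ i : Fin κ,
            ⌊z * (r : ℝ) ^ (n + (i : ℕ) + 1)⌋ - (r : ℤ) * ⌊z * (r : ℝ) ^ (n + (i : ℕ))⌋
              = ((w i : ℕ) : ℤ)) (range (N k))) ?_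
      · refine this.trans (le_of_eq ?_); norm_num
      · intro n hn
        rw [Finset.mem_filter] at hn
        obtain ⟨q, hq⟩ := hc n hn.2
        refine ⟨q, hq.trans ?_⟩
        apply one_div_le_one_div_of_le (by norm_num)
        have : (2 : ℝ) ^ 1 ≤ (2 : ℝ) ^ κ := pow_le_pow_right₀ (by norm_num) hκ
        linarith
    have h1 := hent (N k) (4 / 5) (by omega) (by norm_num) hb
    have h2 : -Real.log (4 / 5) = Real.log (5 / 4) := by
      rw [← Real.log_inv]; norm_num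
    rw [h2] at h1
    have h3 : (κ : ℝ) ≤ 5 := by
      have : κ ≤ 5 := by omega
      exact_mod_cast this
    nlinarith
  · -- large κ : Fejér bound
    have hM1 : 1 ≤ 2 ^ (κ - 2) := Nat.one_le_two_pow
    have hpow : (2 : ℝ) ^ κ = 4 * 2 ^ (κ - 2) := by
      rw [show (4 : ℝ) = 2 ^ 2 by norm_num, ← pow_add]; congr 1; omega
    have hpow2 : (0 : ℝ) < 2 ^ (κ - 2) := by positivity
    obtain ⟨k₀, hk₀⟩ := hunif (2 ^ (κ - 2)) (1 / 2 ^ (κ - 2)) (by positivity)
    set k := k₀ + N₀ + 1 with hk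
    have hNk : k ≤ N k := hN.id_le k
    refine ⟨N k, by omega, ?_⟩
    have hb : ∀ w : Fin κ → Fin r, (cnt r κ (N k) z w : ℝ) ≤ (8 / 2 ^ (κ - 2)) * N k := by
      intro w
      obtain ⟨c, hc⟩ := hcentre w
      have := fejer_bound (N := N k) (M := 2 ^ (κ - 2)) hM1 (η := 1 / 2 ^ (κ - 2)) (by positivity)
        (fun n => z * (r : ℝ) ^ n) c
        (fun h h1 h2 => hk₀ k (by omega) h h1 h2.le)
        _ (Finset.filter_subset (fun n => ∀ i : Fin κ,
            ⌊z * (r : ℝ) ^ (n + (i : ℕ) + 1)⌋ - (r : ℤ) * ⌊z * (r : ℝ) ^ (n + (i : ℕ))⌋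
              = ((w i : ℕ) : ℤ)) (range (N k))) ?_
      · refine this.trans (le_of_eq ?_)
        push_cast
        ring
      · intro n hn
        rw [Finset.mem_filter] at hn
        obtain ⟨q, hq⟩ := hc n hn.2
        refine ⟨q, hq.trans ?_⟩
        apply one_div_le_one_div_of_le (by positivity)
        push_cast
        linarith
    have h1 := hent (N k) (8 / 2 ^ (κ - 2)) (by omega) (by positivity) hb
    have h2 : -Real.log (8 / 2 ^ (κ - 2)) = ((κ : ℝ) - 5) * Real.log 2 := by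
      rw [Real.log_div (by norm_num) (by positivity), Real.log_pow,
        show (8 : ℝ) = 2 ^ 3 by norm_num, Real.log_pow, Nat.cast_sub (by omega)]
      push_cast; ring
    rw [h2] at h1
    have h3 : Real.log (5 / 4) < Real.log 2 := Real.log_lt_log (by norm_num) (by norm_num)
    have h4 : (6 : ℝ) ≤ κ := by exact_mod_cast hbig
    have h5 : (κ : ℝ) / 6 ≤ κ - 5 := by linarith
    have h6 : 0 < Real.log 2 := Real.log_pos (by norm_num)
    calc Real.log (5 / 4) / 6 * κ = (κ / 6) * Real.log (5 / 4) := by ring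
      _ < (κ / 6) * Real.log 2 := by apply mul_lt_mul_of_pos_left h3; linarith
      _ ≤ (κ - 5) * Real.log 2 := mul_le_mul_of_nonneg_right h5 h6.le
      _ ≤ _ := h1

/-- upper entropy bound for sparse digits, with blocks of length one -/
lemma entropy_small {r : ℕ} (hr : 2 ≤ r) {y : ℝ}
    (hy : ∀ ε : ℝ, 0 < ε → ∃ N₀ : ℕ, ∀ M : ℕ, N₀ ≤ M →
        (((range M).filter (fun n => ⌊y * (r : ℝ) ^ (n + 1)⌋ - (r : ℤ) * ⌊y * (r : ℝ) ^ n⌋ ≠ 0)).card : ℝ)
          ≤ ε * M) (ε : ℝ) (hε : 0 < ε) :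
    ∃ N₀ : ℕ, ∀ N : ℕ, N₀ ≤ N →
      ∑ w : Fin 1 → Fin r, Real.negMulLog ((cnt r 1 N y w : ℝ) / N) ≤ ε := by
  classical
  have hr1 : (2 : ℝ) ≤ r := by exact_mod_cast hr
  have hr0 : (0 : ℝ) < r := by linarith
  have hc := Real.continuous_negMulLog
  have h0 := Metric.continuous_iff.mp hc 0 (ε / r) (by positivity)
  have h1 := Metric.continuous_iff.mp hc 1 (ε / r) (by positivity)
  obtain ⟨δ0, hδ0, hδ0'⟩ := h0
  obtain ⟨δ1, hδ1, hδ1'⟩ := h1
  simp only [Real.dist_eq, Real.negMulLog_zero, Real.negMulLog_one, sub_zero] at hδ0' hδ1'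
  set δ := min δ0 δ1 / 2 with hδ
  have hδpos : 0 < δ := by rw [hδ]; positivity
  have hm0 := min_le_left δ0 δ1
  have hm1 := min_le_right δ0 δ1
  obtain ⟨N₀, hN₀⟩ := hy δ hδpos
  refine ⟨N₀ + 1, fun N hN => ?_⟩
  have hNpos : (0 : ℝ) < N := by
    have : 0 < N := by omega
    exact_mod_cast this
  have hbad := hN₀ N (by omega)
  set bad := (range N).filter (fun n => ⌊y * (r : ℝ) ^ (n + 1)⌋ - (r : ℤ) * ⌊y * (r : ℝ) ^ n⌋ ≠ 0)
    with hbaddef
  have hterm : ∀ w : Fin 1 → Fin r, Real.negMulLog ((cnt r 1 N y w : ℝ) / N) ≤ ε / r := by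
    intro w
    by_cases hw : ((w 0 : Fin r) : ℕ) = 0
    · have hcnt : N ≤ cnt r 1 N y w + bad.card := by
        have : cnt r 1 N y w + bad.card = N := by
          have h5 := Finset.card_filter_add_card_filter_not (s := range N)
            (fun n => ⌊y * (r : ℝ) ^ (n + 1)⌋ - (r : ℤ) * ⌊y * (r : ℝ) ^ n⌋ = 0)
          rw [Finset.card_range] at h5
          have h6 : cnt r 1 N y w = ((range N).filter
              (fun n => ⌊y * (r : ℝ) ^ (n + 1)⌋ - (r : ℤ) * ⌊y * (r : ℝ) ^ n⌋ = 0)).card := by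
            unfold cnt
            congr 1
            apply Finset.filter_congr
            intro n _
            rw [Fin.forall_fin_one]
            simp [hw]
          rw [h6, hbaddef]
          exact h5
        omega
      have hcle : cnt r 1 N y w ≤ N := by
        unfold cnt
        exact (Finset.card_filter_le _ _).trans (le_of_eq (Finset.card_range N))
      have h6 : (N : ℝ) ≤ cnt r 1 N y w + bad.card := by exact_mod_cast hcnt
      have h7 : (cnt r 1 N y w : ℝ) ≤ N := by exact_mod_cast hcle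
      have h8 : |(cnt r 1 N y w : ℝ) / N - 1| < δ1 := by
        rw [abs_sub_comm, abs_of_nonneg]
        · have h9 : 1 - δ ≤ (cnt r 1 N y w : ℝ) / N := by
            rw [le_div_iff₀ hNpos]; linarith
          linarith
        · have : (cnt r 1 N y w : ℝ) / N ≤ 1 := by rw [div_le_one hNpos]; exact h7
          linarith
      exact (le_abs_self _).trans (hδ1' _ h8).le
    · have hcnt : cnt r 1 N y w ≤ bad.card := by
        unfold cnt
        apply Finset.card_le_card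
        intro n hn
        rw [Finset.mem_filter] at hn
        rw [hbaddef, Finset.mem_filter]
        refine ⟨hn.1, ?_⟩
        have h5 := hn.2 0
        simp only [Fin.val_zero, add_zero] at h5
        rw [h5]
        exact_mod_cast hw
      have h6 : (cnt r 1 N y w : ℝ) ≤ bad.card := by exact_mod_cast hcnt
      have h8 : |(cnt r 1 N y w : ℝ) / N| < δ0 := by
        rw [abs_of_nonneg (by positivity)]
        have h9 : (cnt r 1 N y w : ℝ) / N ≤ δ := by
          rw [div_le_iff₀ hNpos]; linarith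
        linarith
      exact (le_abs_self _).trans (hδ0' _ h8).le
  calc ∑ w : Fin 1 → Fin r, Real.negMulLog ((cnt r 1 N y w : ℝ) / N)
      ≤ ∑ w : Fin 1 → Fin r, ε / r := Finset.sum_le_sum fun w _ => hterm w
    _ = ε := by
      rw [Finset.sum_const, Finset.card_univ, Fintype.card_fun, Fintype.card_fin, Fintype.card_fin,
        nsmul_eq_mul]
      push_cast
      field_simp

end

end Pool.Agent.H252.IrrMul
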