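import Pool.Agent.H252.IrrMulF

set_option autoImplicit false

namespace Pool.Agent.H252.IrrMul

open Finset

noncomputable section

/-- lower entropy bound along the sequence `N` -/
lemma entropy_large_ev {r : ℕ} (hr : 2 ≤ r) {z : ℝ} {N : ℕ → ℕ} (hN : StrictMono N)
    (hF : ∀ h : ℕ, 1 ≤ h → ∀ ε : ℝ, 0 < ε → ∃ k₀ : ℕ, ∀ k, k₀ ≤ k →
        ‖∑ n ∈ range (N k), e ((h : ℝ) * (z * (r : ℝ) ^ n))‖ ≤ ε * N k)
    (κ : ℕ) (hκ : 1 ≤ κ) :
    ∃ k₀ : ℕ, ∀ k, k₀ ≤ k → Real.log (5 / 4) / 6 * κ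
      < ∑ w : Fin κ → Fin r, Real.negMulLog ((cnt r κ (N k) z w : ℝ) / N k) := by
  classical
  have hr1 : (2 : ℝ) ≤ r := by exact_mod_cast hr
  -- uniform smallness
  have hunif : ∀ (H : ℕ) (ε : ℝ), 0 < ε → ∃ k₀ : ℕ, ∀ k, k₀ ≤ k → ∀ h : ℕ, 1 ≤ h → h ≤ H →
      ‖∑ n ∈ range (N k), e ((h : ℝ) * (z * (r : ℝ) ^ n))‖ ≤ ε * N k := by
    intro H ε hε
    induction H with
    | zero => exact ⟨0, fun k _ h h1 h2 => by omega⟩
    | succ H ih =>
      obtain ⟨k1, hk1⟩ := ih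
      obtain ⟨k2, hk2⟩ := hF (H + 1) (by omega) ε hε
      refine ⟨max k1 k2, fun k hk h h1 h2 => ?_⟩
      have hm1 := le_max_left k1 k2
      have hm2 := le_max_right k1 k2
      rcases Nat.lt_or_ge h (H + 1) with hlt | hge
      · exact hk1 k (by omega) h h1 (by omega)
      · have : h = H + 1 := by omega
        subst this
        exact hk2 k (by omega)
  have hlog : 0 < Real.log (5 / 4) := Real.log_pos (by norm_num)
  -- each block set is close to a centre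
  have hcentre : ∀ w : Fin κ → Fin r, ∃ c : ℝ, ∀ n : ℕ, (∀ i : Fin κ,
      ⌊z * (r : ℝ) ^ (n + (i : ℕ) + 1)⌋ - (r : ℤ) * ⌊z * (r : ℝ) ^ (n + (i : ℕ))⌋
      = ((w i : ℕ) : ℤ)) → ∃ q : ℤ, |z * (r : ℝ) ^ n - q - c| ≤ 1 / (2 * (r : ℝ) ^ κ) := by
    intro w
    obtain ⟨W, hW⟩ := floor_block z r (fun i => if h : i < κ then ((w ⟨i, h⟩ : ℕ) : ℤ) else 0) κ
    refine ⟨(W + 1 / 2) / (r : ℝ) ^ κ, fun n hn => ⟨⌊z * (r : ℝ) ^ n⌋, ?_⟩⟩
    apply block_near hr
    apply hW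
    intro i hi
    rw [dif_pos hi]
    exact hn ⟨i, hi⟩
  have hent : ∀ (M : ℕ) (ρ : ℝ), 0 < M → 0 < ρ → (∀ w : Fin κ → Fin r, (cnt r κ M z w : ℝ) ≤ ρ * M) →
      -Real.log ρ ≤ ∑ w : Fin κ → Fin r, Real.negMulLog ((cnt r κ M z w : ℝ) / M) := by
    intro M ρ hM hρ hb
    have hM' : (0 : ℝ) < M := by exact_mod_cast hM
    apply entropy_lower _ hρ
    · intro w; positivity
    · intro w; rw [div_le_iff₀ hM']; exact hb w
    · rw [← Finset.sum_div, div_eq_one_iff_eq hM'.ne']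
      exact_mod_cast sum_cnt hr κ M z
  have h2κ : (2 : ℝ) ^ κ ≤ (r : ℝ) ^ κ := pow_le_pow_left₀ (by norm_num) hr1 κ
  rcases Nat.lt_or_ge κ 6 with hsmall | hbig
  · -- small κ : half circle bound
    obtain ⟨k₀, hk₀⟩ := hunif 2 (1 / 20) (by norm_num)
    refine ⟨k₀ + 1, fun k hk => ?_⟩
    have hNk : k ≤ N k := hN.id_le k
    have hb : ∀ w : Fin κ → Fin r, (cnt r κ (N k) z w : ℝ) ≤ (4 / 5) * N k := by
      intro w
      obtain ⟨c, hc⟩ := hcentre w
      have := half_bound (N := N k) (η := 1 / 20) (fun n => z * (r : ℝ) ^ n) c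
        (by simpa using hk₀ k (by omega) 1 (by omega) (by omega))
        (by have := hk₀ k (by omega) 2 (by omega) (by omega)
            rw [Nat.cast_ofNat] at this
            exact this)
        _ (Finset.filter_subset (fun n => ∀ i : Fin κ,
            ⌊z * (r : ℝ) ^ (n + (i : ℕ) + 1)⌋ - (r : ℤ) * ⌊z * (r : ℝ) ^ (n + (i : ℕ))⌋
              = ((w i : ℕ) : ℤ)) (range (N k))) ?_
      · refine this.trans (le_of_eq ?_); norm_num
      · intro n hn
        rw [Finset.mem_filter] at hn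
        obtain ⟨q, hq⟩ := hc n hn.2
        refine ⟨q, hq.trans ?_⟩
        apply one_div_le_one_div_of_le (by norm_num)
        have : (2 : ℝ) ^ 1 ≤ (2 : ℝ) ^ κ := pow_le_pow_right₀ (by norm_num) hκ
        linarith
    have h1 := hent (N k) (4 / 5) (by omega) (by norm_num) hb
    have h2 : -Real.log (4 / 5) = Real.log (5 / 4) := by
      rw [← Real.log_inv]; norm_num
    rw [h2] at h1
    have h3 : (κ : ℝ) ≤ 5 := by
      have : κ ≤ 5 := by omega
      exact_mod_cast this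
    nlinarith
  · -- large κ : Fejér bound
    have hM1 : 1 ≤ 2 ^ (κ - 2) := Nat.one_le_two_pow
    have hpow : (2 : ℝ) ^ κ = 4 * 2 ^ (κ - 2) := by
      rw [show (4 : ℝ) = 2 ^ 2 by norm_num, ← pow_add]; congr 1; omega
    have hpow2 : (0 : ℝ) < 2 ^ (κ - 2) := by positivity
    obtain ⟨k₀, hk₀⟩ := hunif (2 ^ (κ - 2)) (1 / 2 ^ (κ - 2)) (by positivity)
    refine ⟨k₀ + 1, fun k hk => ?_⟩
    have hNk : k ≤ N k := hN.id_le k
    have hb : ∀ w : Fin κ → Fin r, (cnt r κ (N k) z w : ℝ) ≤ (8 / 2 ^ (κ - 2)) * N k := by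
      intro w
      obtain ⟨c, hc⟩ := hcentre w
      have := fejer_bound (N := N k) (M := 2 ^ (κ - 2)) hM1 (η := 1 / 2 ^ (κ - 2)) (by positivity)
        (fun n => z * (r : ℝ) ^ n) c
        (fun h h1 h2 => hk₀ k (by omega) h h1 h2.le)
        _ (Finset.filter_subset (fun n => ∀ i : Fin κ,
            ⌊z * (r : ℝ) ^ (n + (i : ℕ) + 1)⌋ - (r : ℤ) * ⌊z * (r : ℝ) ^ (n + (i : ℕ))⌋
              = ((w i : ℕ) : ℤ)) (range (N k))) ?_
      · refine this.trans (le_of_eq ?_)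
        push_cast
        ring
      · intro n hn
        rw [Finset.mem_filter] at hn
        obtain ⟨q, hq⟩ := hc n hn.2
        refine ⟨q, hq.trans ?_⟩
        apply one_div_le_one_div_of_le (by positivity)
        push_cast
        linarith
    have h1 := hent (N k) (8 / 2 ^ (κ - 2)) (by omega) (by positivity) hb
    have h2 : -Real.log (8 / 2 ^ (κ - 2)) = ((κ : ℝ) - 5) * Real.log 2 := by
      rw [Real.log_div (by norm_num) (by positivity), Real.log_pow,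
        show (8 : ℝ) = 2 ^ 3 by norm_num, Real.log_pow, Nat.cast_sub (by omega)]
      push_cast; ring
    rw [h2] at h1
    have h3 : Real.log (5 / 4) < Real.log 2 := Real.log_lt_log (by norm_num) (by norm_num)
    have h4 : (6 : ℝ) ≤ κ := by exact_mod_cast hbig
    have h5 : (κ : ℝ) / 6 ≤ κ - 5 := by linarith
    have h6 : 0 < Real.log 2 := Real.log_pos (by norm_num)
    calc Real.log (5 / 4) / 6 * κ = (κ / 6) * Real.log (5 / 4) := by ring
      _ < (κ / 6) * Real.log 2 := by apply mul_lt_mul_of_pos_left h3; linarith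
      _ ≤ (κ - 5) * Real.log 2 := mul_le_mul_of_nonneg_right h5 h6.le
      _ ≤ _ := h1

end

end Pool.Agent.H252.IrrMul
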